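import Mathlib
import Pool.Agent.H211F52.Ent

/-!
# Entropies on finite uniform spaces and the copy construction
-/

set_option autoImplicit false

namespace Pool.Agent.H211TP

open Finset Classical Pool.Agent.H211F52

section ent

variable {Ω α β γ : Type} [Fintype Ω]

/-- The entropy of a function on a finite uniform space. -/
noncomputable def ent (f : Ω → α) : ℝ := Real.log (Fintype.card Ω) - sl f / Fintype.card Ω

lemma ent_congr {f : Ω → α} {g : Ω → β} (h : ∀ ω ω', f ω' = f ω ↔ g ω' = g ω) : ent f = ent g := by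
  unfold ent
  rw [sl_congr h]

lemma ent_submod (f : Ω → α) (g : Ω → β) (h : Ω → γ) (hg : ∀ ω ω', g ω' = g ω → f ω' = f ω)
    (hh : ∀ ω ω', h ω' = h ω → f ω' = f ω) :
    ent f + ent (fun ω => (g ω, h ω)) ≤ ent g + ent h := by
  unfold ent
  have h1 := sl_submod f g h hg hh
  have h2 : (0 : ℝ) ≤ Fintype.card Ω := Nat.cast_nonneg _
  have h3 := div_le_div_of_nonneg_right h1 h2
  rw [add_div, add_div] at h3
  linarith

/-- Submodularity for tuples. -/
lemma ent_tup {n : ℕ} (X : Fin n → Ω → β) (U V A B : Finset (Fin n)) (hA : A = U ∩ V) (hB : B = U ∪ V) :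
    0 ≤ ent (tup X U) + ent (tup X V) - ent (tup X A) - ent (tup X B) := by
  have h1 := ent_submod (tup X A) (tup X U) (tup X V)
    (fun ω ω' h => by
      rw [tup_eq] at h ⊢
      intro i hi
      rw [hA, Finset.mem_inter] at hi
      exact h i hi.1)
    (fun ω ω' h => by
      rw [tup_eq] at h ⊢
      intro i hi
      rw [hA, Finset.mem_inter] at hi
      exact h i hi.2)
  have h2 : ent (fun ω => (tup X U ω, tup X V ω)) = ent (tup X B) := by
    apply ent_congr
    intro ω ω'
    rw [Prod.mk.injEq, tup_eq, tup_eq, tup_eq, hB]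
    constructor
    · rintro ⟨h1, h2⟩ i hi
      rcases Finset.mem_union.mp hi with hi | hi
      · exact h1 i hi
      · exact h2 i hi
    · intro h
      exact ⟨fun i hi => h i (Finset.mem_union_left _ hi), fun i hi => h i (Finset.mem_union_right _ hi)⟩
  rw [h2] at h1
  linarith

end ent

section fib

variable {Ω Ω' α : Type} [Fintype Ω] [Fintype Ω']

/-- Maps with fibres of constant size preserve entropies. -/
lemma ent_comp [Nonempty Ω] (π : Ω' → Ω) (L : ℕ) (hL : 0 < L) (hπ : ∀ ω, (univ.filter (fun ω' => π ω' = ω)).card = L)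
    (f : Ω → α) : ent (fun ω' => f (π ω')) = ent f := by
  have hcard : Fintype.card Ω' = Fintype.card Ω * L := by
    rw [← Finset.card_univ, Finset.card_eq_sum_card_fiberwise (f := π) (s := univ) (t := univ)
      (fun _ _ => Finset.mem_coe.mpr (Finset.mem_univ _))]
    rw [Finset.sum_congr rfl (fun ω _ => hπ ω), Finset.sum_const, Finset.card_univ, smul_eq_mul]
  have hcs : ∀ ω', cs (fun ω' => f (π ω')) ω' = cs f (π ω') * L := by
    intro ω'
    unfold cs
    rw [Finset.card_eq_sum_card_fiberwise (f := π) (t := univ.filter (fun ω => f ω = f (π ω')))]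
    · have : ∀ ω ∈ univ.filter (fun ω => f ω = f (π ω')),
          ((univ.filter (fun a => f (π a) = f (π ω'))).filter (fun a => π a = ω)).card = L := by
        intro ω hω
        rw [← hπ ω]
        congr 1
        ext a
        simp only [Finset.mem_filter, Finset.mem_univ, true_and] at hω ⊢
        constructor
        · exact fun h => h.2
        · exact fun h => ⟨by rw [h]; exact hω, h⟩
      rw [Finset.sum_congr rfl this, Finset.sum_const, smul_eq_mul]
    · intro a ha
      simp only [Finset.coe_filter, Finset.mem_univ, true_and, Set.mem_ofPred_eq] at ha ⊢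
      exact ha
  have hsum : ∀ F : Ω → ℝ, ∑ ω', F (π ω') = L * ∑ ω, F ω := by
    intro F
    rw [← Finset.sum_fiberwise_of_maps_to (s := univ) (t := univ) (g := π) (fun _ _ => Finset.mem_univ _),
      Finset.mul_sum]
    refine Finset.sum_congr rfl fun ω _ => ?_
    have : ∀ a ∈ univ.filter (fun a => π a = ω), F (π a) = F ω := fun a ha => by
      rw [(Finset.mem_filter.mp ha).2]
    rw [Finset.sum_congr rfl this, Finset.sum_const, hπ, nsmul_eq_mul]
  have hΩ : (0 : ℝ) < Fintype.card Ω := by exact_mod_cast Fintype.card_pos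
  have hL' : (0 : ℝ) < L := by exact_mod_cast hL
  have hsl : sl (fun ω' => f (π ω')) = L * sl f + L * Fintype.card Ω * Real.log L := by
    unfold sl
    have : ∀ ω', Real.log (cs (fun ω' => f (π ω')) ω') = Real.log (cs f (π ω')) + Real.log L := by
      intro ω'
      rw [hcs]
      push_cast
      rw [Real.log_mul (cs_pos' f _).ne' hL'.ne']
    rw [Finset.sum_congr rfl (fun ω' _ => this ω'), Finset.sum_add_distrib,
      hsum (fun ω => Real.log (cs f ω)), Finset.sum_const, Finset.card_univ, hcard, nsmul_eq_mul]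
    push_cast
    ring
  unfold ent
  rw [hsl, hcard]
  push_cast
  rw [Real.log_mul hΩ.ne' hL'.ne']
  field_simp
  ring

end fib

/-! ### The copy construction -/

section copy

variable {Ω δ : Type} [Fintype Ω] (q : Ω → δ)

/-- The common multiple. -/
noncomputable def LL : ℕ := ∏ ω, cs q ω

lemma LL_pos : 0 < LL q := Finset.prod_pos fun ω _ => cs_pos q ω

lemma dvd_LL (ω : Ω) : cs q ω ∣ LL q := Finset.dvd_prod_of_mem _ (Finset.mem_univ ω)

lemma cs_mul (ω : Ω) : cs q ω * (LL q / cs q ω) = LL q := Nat.mul_div_cancel' (dvd_LL q ω)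

/-- Pairs of points with the same value of `q`, with multiplicities. -/
def CO : Type := Σ ω : Ω, {ω' : Ω // q ω' = q ω} × Fin (LL q / cs q ω)

noncomputable instance : Fintype (CO q) :=
  inferInstanceAs (Fintype (Σ ω : Ω, {ω' : Ω // q ω' = q ω} × Fin (LL q / cs q ω)))

/-- The first point. -/
def p1 (x : CO q) : Ω := x.1

/-- The second point. -/
def p2 (x : CO q) : Ω := x.2.1.1

lemma p12 (x : CO q) : q (p2 q x) = q (p1 q x) := x.2.1.2

/-- Counting pairs. -/
lemma card_pairs (A B : Ω → Prop) :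
    (univ.filter (fun x : CO q => A (p1 q x) ∧ B (p2 q x))).card =
      ∑ ω ∈ univ.filter A, (univ.filter (fun ω' => q ω' = q ω ∧ B ω')).card * (LL q / cs q ω) := by
  rw [← Fintype.card_subtype]
  have e : {x : CO q // A (p1 q x) ∧ B (p2 q x)} ≃
      Σ ω : {ω // A ω}, {ω' : Ω // q ω' = q ω.1 ∧ B ω'} × Fin (LL q / cs q ω.1) :=
    { toFun := fun x => ⟨⟨x.1.1, x.2.1⟩, ⟨x.1.2.1.1, x.1.2.1.2, x.2.2⟩, x.1.2.2⟩
      invFun := fun x => ⟨⟨x.1.1, ⟨x.2.1.1, x.2.1.2.1⟩, x.2.2⟩, x.1.2, x.2.1.2.2⟩
      left_inv := fun _ => rfl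
      right_inv := fun _ => rfl }
  rw [Fintype.card_congr e, Fintype.card_sigma]
  rw [Finset.sum_subtype (p := A) (univ.filter A) (fun ω => by simp)
    (fun ω => (univ.filter (fun ω' => q ω' = q ω ∧ B ω')).card * (LL q / cs q ω))]
  refine Finset.sum_congr rfl fun ω _ => ?_
  rw [Fintype.card_prod, Fintype.card_fin, Fintype.card_subtype]

lemma fib1 (ω : Ω) : (univ.filter (fun x : CO q => p1 q x = ω)).card = LL q := by
  have h := card_pairs q (fun ω' => ω' = ω) (fun _ => True)
  simp only [and_true] at h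
  rw [h]
  have : univ.filter (fun ω' : Ω => ω' = ω) = {ω} := by ext; simp
  rw [this, Finset.sum_singleton]
  exact cs_mul q ω

lemma fib2 (ω : Ω) : (univ.filter (fun x : CO q => p2 q x = ω)).card = LL q := by
  have h := card_pairs q (fun _ => True) (fun ω' => ω' = ω)
  simp only [true_and] at h
  rw [h]
  have h1 : ∀ ω1 : Ω, (univ.filter (fun ω' => q ω' = q ω1 ∧ ω' = ω)).card * (LL q / cs q ω1) =
      if q ω1 = q ω then LL q / cs q ω else 0 := by
    intro ω1
    by_cases hq : q ω1 = q ω
    · rw [if_pos hq, cs_same hq]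
      have : univ.filter (fun ω' => q ω' = q ω1 ∧ ω' = ω) = {ω} := by
        ext ω'
        simp only [Finset.mem_filter, Finset.mem_univ, true_and, Finset.mem_singleton]
        exact ⟨fun h => h.2, fun h => ⟨by rw [h, hq], h⟩⟩
      rw [this, Finset.card_singleton, one_mul]
    · rw [if_neg hq]
      have : univ.filter (fun ω' => q ω' = q ω1 ∧ ω' = ω) = ∅ := by
        apply Finset.filter_eq_empty_iff.mpr
        rintro ω' _ ⟨h1, h2⟩
        rw [h2] at h1
        exact hq h1.symm
      rw [this, Finset.card_empty, zero_mul]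
  refine (Finset.sum_congr (s₂ := univ) (by ext; simp) (fun ω1 _ => h1 ω1)).trans ?_
  rw [← Finset.sum_filter, Finset.sum_const, smul_eq_mul]
  exact cs_mul q ω

instance [Nonempty Ω] : Nonempty (CO q) := by
  obtain ⟨ω⟩ := (inferInstance : Nonempty Ω)
  have : 0 < LL q / cs q ω := Nat.div_pos (Nat.le_of_dvd (LL_pos q) (dvd_LL q ω)) (cs_pos q ω)
  exact ⟨⟨ω, ⟨ω, rfl⟩, ⟨0, this⟩⟩⟩

variable {α γ : Type}

lemma ent_p1 [Nonempty Ω] (f : Ω → α) : ent (fun x : CO q => f (p1 q x)) = ent f :=
  ent_comp (p1 q) (LL q) (LL_pos q) (fib1 q) f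

lemma ent_p2 [Nonempty Ω] (f : Ω → α) : ent (fun x : CO q => f (p2 q x)) = ent f :=
  ent_comp (p2 q) (LL q) (LL_pos q) (fib2 q) f

/-- The class sizes of a pair of functions of the two points. -/
lemma cs_pair (f : Ω → α) (g : Ω → γ) (hf : ∀ ω ω', f ω' = f ω → q ω' = q ω) (hg : ∀ ω ω', g ω' = g ω → q ω' = q ω)
    (x : CO q) : cs (fun x : CO q => (f (p1 q x), g (p2 q x))) x =
      cs f (p1 q x) * (cs g (p2 q x) * (LL q / cs q (p1 q x))) := by
  have h := card_pairs q (fun ω => f ω = f (p1 q x)) (fun ω => g ω = g (p2 q x))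
  have h0 : cs (fun x : CO q => (f (p1 q x), g (p2 q x))) x =
      (univ.filter (fun x' : CO q => f (p1 q x') = f (p1 q x) ∧ g (p2 q x') = g (p2 q x))).card := by
    unfold cs
    simp only [Prod.mk.injEq]
  rw [h0, h]
  have h1 : ∀ ω ∈ univ.filter (fun ω => f ω = f (p1 q x)),
      (univ.filter (fun ω' => q ω' = q ω ∧ g ω' = g (p2 q x))).card * (LL q / cs q ω) =
        cs g (p2 q x) * (LL q / cs q (p1 q x)) := by
    intro ω hω
    have h2 := hf _ _ (Finset.mem_filter.mp hω).2
    rw [cs_same h2]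
    congr 1
    unfold cs
    congr 1
    ext ω'
    simp only [Finset.mem_filter, Finset.mem_univ, true_and]
    constructor
    · exact fun h => h.2
    · intro h
      exact ⟨by rw [hg _ _ h, p12 q x, h2], h⟩
  rw [Finset.sum_congr rfl h1, Finset.sum_const, smul_eq_mul]
  rfl

/-- Conditional independence in the copy construction. -/
lemma ent_pair [Nonempty Ω] (f : Ω → α) (g : Ω → γ) (hf : ∀ ω ω', f ω' = f ω → q ω' = q ω)
    (hg : ∀ ω ω', g ω' = g ω → q ω' = q ω) :
    ent (fun x : CO q => (f (p1 q x), g (p2 q x))) = ent f + ent g - ent q := by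
  have hN : (0 : ℝ) < Fintype.card (CO q) := by exact_mod_cast Fintype.card_pos
  have hL : (0 : ℝ) < LL q := by exact_mod_cast LL_pos q
  have h1 : ∀ x : CO q, Real.log (cs (fun x : CO q => (f (p1 q x), g (p2 q x))) x) =
      Real.log (cs f (p1 q x)) + Real.log (cs g (p2 q x)) + Real.log (LL q) - Real.log (cs q (p1 q x)) := by
    intro x
    rw [cs_pair q f g hf hg]
    have h2 : (LL q / cs q (p1 q x) : ℕ) ≠ 0 := by
      intro h0
      have := cs_mul q (p1 q x)
      rw [h0, mul_zero] at this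
      exact (LL_pos q).ne this
    have h3 : ((cs q (p1 q x) : ℕ) : ℝ) * ((LL q / cs q (p1 q x) : ℕ) : ℝ) = LL q := by exact_mod_cast cs_mul q (p1 q x)
    have h4 : Real.log (LL q) = Real.log (cs q (p1 q x)) + Real.log ((LL q / cs q (p1 q x) : ℕ) : ℝ) := by
      rw [← h3, Real.log_mul (cs_pos' q _).ne' (by exact_mod_cast h2)]
    push_cast
    rw [Real.log_mul (cs_pos' f _).ne' (mul_pos (cs_pos' g _) (by
      have : 0 < (LL q / cs q (p1 q x) : ℕ) := Nat.pos_of_ne_zero h2
      exact_mod_cast this)).ne', Real.log_mul (cs_pos' g _).ne' (by exact_mod_cast h2), h4]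
    ring
  have hs : ∀ F : Ω → ℝ, (∑ x : CO q, F (p1 q x)) = LL q * ∑ ω, F ω := by
    intro F
    rw [← Finset.sum_fiberwise_of_maps_to (s := univ) (t := univ) (g := p1 q) (fun _ _ => Finset.mem_univ _),
      Finset.mul_sum]
    refine Finset.sum_congr rfl fun ω _ => ?_
    have : ∀ a ∈ univ.filter (fun a => p1 q a = ω), F (p1 q a) = F ω := fun a ha => by
      rw [(Finset.mem_filter.mp ha).2]
    rw [Finset.sum_congr rfl this, Finset.sum_const, fib1, nsmul_eq_mul]
  have hs2 : ∀ F : Ω → ℝ, (∑ x : CO q, F (p2 q x)) = LL q * ∑ ω, F ω := by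
    intro F
    rw [← Finset.sum_fiberwise_of_maps_to (s := univ) (t := univ) (g := p2 q) (fun _ _ => Finset.mem_univ _),
      Finset.mul_sum]
    refine Finset.sum_congr rfl fun ω _ => ?_
    have : ∀ a ∈ univ.filter (fun a => p2 q a = ω), F (p2 q a) = F ω := fun a ha => by
      rw [(Finset.mem_filter.mp ha).2]
    rw [Finset.sum_congr rfl this, Finset.sum_const, fib2, nsmul_eq_mul]
  have hcard : (Fintype.card (CO q) : ℝ) = LL q * Fintype.card Ω := by
    have := hs (fun _ => (1 : ℝ))
    simpa using this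
  have hsl : sl (fun x : CO q => (f (p1 q x), g (p2 q x))) =
      LL q * sl f + LL q * sl g + LL q * Fintype.card Ω * Real.log (LL q) - LL q * sl q := by
    unfold sl
    rw [Finset.sum_congr rfl (fun x _ => h1 x), Finset.sum_sub_distrib, Finset.sum_add_distrib,
      Finset.sum_add_distrib, hs (fun ω => Real.log (cs f ω)), hs2 (fun ω => Real.log (cs g ω)),
      hs (fun ω => Real.log (cs q ω)), Finset.sum_const, Finset.card_univ, nsmul_eq_mul, hcard]
  have hΩ : (0 : ℝ) < Fintype.card Ω := by exact_mod_cast Fintype.card_pos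
  unfold ent
  rw [hsl, hcard, Real.log_mul hL.ne' hΩ.ne']
  field_simp
  ring

end copy

end Pool.Agent.H211TP
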