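import Mathlib

/-!
# Graph profiles and their tropicalizations
-/

set_option autoImplicit false

namespace Pool.Agent.H211TP

/-- The homomorphism density of `C` in `G`. -/
noncomputable def dens {v k : ℕ} (C : SimpleGraph (Fin v)) (G : SimpleGraph (Fin (k + 1))) : ℝ :=
  (Nat.card (C →g G) : ℝ) / ((k + 1 : ℕ) : ℝ) ^ v

/-- The graph profile of a finite collection of graphs: the closure of the set of all vectors of homomorphism
densities in a graph. -/
def profile {s : ℕ} (v : Fin s → ℕ) (C : ∀ i, SimpleGraph (Fin (v i))) : Set (Fin s → ℝ) :=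
  closure {y | ∃ (k : ℕ) (G : SimpleGraph (Fin (k + 1))), y = fun i => dens (C i) G}

/-- The tropicalization of the graph profile: the closure of the conical hull of the set of coordinatewise
logarithms of the points of the profile with positive coordinates. -/
def trop {s : ℕ} (v : Fin s → ℕ) (C : ∀ i, SimpleGraph (Fin (v i))) : Set (Fin s → ℝ) :=
  closure (Submodule.span NNReal {z | ∃ y ∈ profile v C, (∀ i, 0 < y i) ∧ z = fun i => Real.log (y i)} :
    Set (Fin s → ℝ))

/-- A polyhedral cone is an intersection of finitely many closed half-spaces through the origin. -/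
def IsPolyhedralCone {s : ℕ} (K : Set (Fin s → ℝ)) : Prop :=
  ∃ (m : ℕ) (a : Fin m → Fin s → ℝ), K = {y | ∀ i, 0 ≤ ∑ j, a i j * y j}

end Pool.Agent.H211TP
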