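import Mathlib
import Pool.Agent.H211TP.Copy

/-!
# An infinite family of information inequalities for four variables

The family is due to Matus; the proof is by induction, each step using one copy of the first variable over the
second and the third.
-/

set_option autoImplicit false

namespace Pool.Agent.H211TP

open Finset Classical Pool.Agent.H211F52

/-- The functional of the family. -/
noncomputable def Mm (K : ℝ) (h : Finset (Fin 4) → ℝ) : ℝ :=
  K * (h {0,1} + h {0,2} + h {1,2} + h {0,3} + h {1,3} - h {0} - h {1} - h {2,3} - h {0,1,2} - h {0,1,3}) +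
  (h {0,1} + h {0,2} - h {0} - h {0,1,2}) +
  K * (K + 1) / 2 * ((h {0,2} + h {1,2} - h {2} - h {0,1,2}) + (h {0,1} + h {1,2} - h {1} - h {0,1,2}))

/-- The numerical part of the induction step. -/
lemma mat_num (K : ℝ) (hK : 0 ≤ K) (a b c r ab ac bc ad bd cd ar br cr dr abc abd bcd abr acr bcr adr bdr cdr
    abcd abcr abdr bcdr abcdr : ℝ)
    (E1 : r = a) (E2 : br = ab) (E3 : cr = ac) (E4 : bcr = abc) (E5 : abcr = 2 * abc - bc)
    (E6 : bcdr = bcd + abc - bc) (E7 : abcdr = abcd + abc - bc)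
    (M : 0 ≤ K * (abr + acr + bcr + adr + bdr - ar - br - cdr - abcr - abdr) + (abr + acr - ar - abcr) +
      K * (K + 1) / 2 * ((acr + bcr - cr - abcr) + (abr + bcr - br - abcr)))
    (I1 : 0 ≤ adr + bdr - dr - abdr) (I2 : 0 ≤ ab + br - b - abr) (I3 : 0 ≤ ac + cr - c - acr)
    (I4 : 0 ≤ bcd + cdr - cd - bcdr) (I5 : 0 ≤ cr + dr - r - cdr) (I6 : 0 ≤ abcd + abdr - abd - abcdr)
    (I7 : 0 ≤ ad + ar - a - adr) (I8 : 0 ≤ bd + br - b - bdr) :
    0 ≤ (K + 1) * (ab + ac + bc + ad + bd - a - b - cd - abc - abd) + (ab + ac - a - abc) +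
      (K + 1) * (K + 1 + 1) / 2 * ((ac + bc - c - abc) + (ab + bc - b - abc)) := by
  subst E1 E2 E3 E4 E5 E6 E7
  have h1 := mul_nonneg (by positivity : 0 ≤ (K + 1) * (K + 1 + 1) / 2) (add_nonneg I2 I3)
  have h4 := mul_nonneg (by positivity : 0 ≤ K + 1) I4
  have h6 := mul_nonneg (by positivity : 0 ≤ K + 1) I6
  have h7 := mul_nonneg (by positivity : 0 ≤ K + 1) I7
  have h8 := mul_nonneg (by positivity : 0 ≤ K + 1) I8
  nlinarith

section step

variable {Ω β : Type} [Fintype Ω] (X : Fin 4 → Ω → β)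

/-- The five functions on the copy space. -/
noncomputable def X5 (i : Fin 5) (x : CO (tup X {1,2})) : β :=
  if h : i.val < 4 then X ⟨i, h⟩ (p1 _ x) else X 0 (p2 _ x)

lemma X5_low (i : Fin 4) (x : CO (tup X {1,2})) : X5 X (Fin.castSuccEmb i) x = X i (p1 _ x) := by
  unfold X5
  rw [dif_pos (by exact i.2 : (Fin.castSuccEmb i).val < 4)]
  rfl

lemma X5_top (x : CO (tup X {1,2})) : X5 X 4 x = X 0 (p2 _ x) := rfl

lemma copy_eq (x : CO (tup X {1,2})) : X 1 (p2 _ x) = X 1 (p1 _ x) ∧ X 2 (p2 _ x) = X 2 (p1 _ x) := by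
  have h := p12 (tup X {1,2}) x
  rw [tup_eq] at h
  exact ⟨h 1 (by simp), h 2 (by simp)⟩

lemma x5_low [Nonempty Ω] (U : Finset (Fin 4)) :
    ent (tup (X5 X) (U.map Fin.castSuccEmb)) = ent (tup X U) := by
  rw [← ent_p1 (tup X {1,2}) (tup X U)]
  apply ent_congr
  intro x x'
  rw [tup_eq, tup_eq]
  constructor
  · intro h i hi
    have := h (Fin.castSuccEmb i) (Finset.mem_map_of_mem _ hi)
    rwa [X5_low, X5_low] at this
  · intro h i hi
    obtain ⟨j, hj, rfl⟩ := Finset.mem_map.mp hi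
    rw [X5_low, X5_low]
    exact h j hj

lemma x5_r [Nonempty Ω] (S : Finset (Fin 4)) (hS : S ⊆ {1,2}) :
    ent (tup (X5 X) (insert 4 (S.map Fin.castSuccEmb))) = ent (tup X (insert 0 S)) := by
  rw [← ent_p2 (tup X {1,2}) (tup X (insert 0 S))]
  apply ent_congr
  intro x x'
  rw [tup_eq, tup_eq]
  have hc : ∀ i ∈ S, ∀ y : CO (tup X {1,2}), X i (p2 _ y) = X i (p1 _ y) := by
    intro i hi y
    have := hS hi
    simp only [Finset.mem_insert, Finset.mem_singleton] at this
    rcases this with rfl | rfl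
    · exact (copy_eq X y).1
    · exact (copy_eq X y).2
  constructor
  · intro h i hi
    rcases Finset.mem_insert.mp hi with rfl | hi
    · exact h 4 (Finset.mem_insert_self _ _)
    · have := h (Fin.castSuccEmb i) (Finset.mem_insert_of_mem (Finset.mem_map_of_mem _ hi))
      rw [X5_low, X5_low] at this
      rw [hc i hi x, hc i hi x']
      exact this
  · intro h i hi
    rcases Finset.mem_insert.mp hi with rfl | hi
    · exact h 0 (Finset.mem_insert_self _ _)
    · obtain ⟨j, hj, rfl⟩ := Finset.mem_map.mp hi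
      rw [X5_low, X5_low, ← hc j hj x, ← hc j hj x']
      exact h j (Finset.mem_insert_of_mem hj)

lemma x5_ci [Nonempty Ω] (S : Finset (Fin 4)) (hS : {1,2} ⊆ S) :
    ent (tup (X5 X) (insert 4 (S.map Fin.castSuccEmb))) =
      ent (tup X S) + ent (tup X {0,1,2}) - ent (tup X {1,2}) := by
  rw [← ent_pair (tup X {1,2}) (tup X S) (tup X {0,1,2})
    (fun ω ω' h => by
      rw [tup_eq] at h ⊢
      exact fun i hi => h i (hS hi))
    (fun ω ω' h => by
      rw [tup_eq] at h ⊢
      exact fun i hi => h i (by simp only [Finset.mem_insert, Finset.mem_singleton] at hi ⊢; exact Or.inr hi))]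
  apply ent_congr
  intro x x'
  rw [tup_eq, Prod.mk.injEq, tup_eq, tup_eq]
  constructor
  · intro h
    have h1 : ∀ i ∈ S, X i (p1 _ x') = X i (p1 _ x) := by
      intro i hi
      have := h (Fin.castSuccEmb i) (Finset.mem_insert_of_mem (Finset.mem_map_of_mem _ hi))
      rwa [X5_low, X5_low] at this
    refine ⟨h1, fun i hi => ?_⟩
    simp only [Finset.mem_insert, Finset.mem_singleton] at hi
    rcases hi with rfl | rfl | rfl
    · exact h 4 (Finset.mem_insert_self _ _)
    · rw [(copy_eq X x).1, (copy_eq X x').1]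
      exact h1 1 (hS (by simp))
    · rw [(copy_eq X x).2, (copy_eq X x').2]
      exact h1 2 (hS (by simp))
  · rintro ⟨h1, h2⟩ i hi
    rcases Finset.mem_insert.mp hi with rfl | hi
    · exact h2 0 (by simp)
    · obtain ⟨j, hj, rfl⟩ := Finset.mem_map.mp hi
      rw [X5_low, X5_low]
      exact h1 j hj

/-- The grouped functions. -/
noncomputable def XG (i : Fin 4) (x : CO (tup X {1,2})) : β × β :=
  (X i (p1 _ x), if i = 3 then X 3 (p1 _ x) else X 0 (p2 _ x))

lemma xg_eq (U : Finset (Fin 4)) (hU : ∃ i ∈ U, i ≠ 3) :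
    ent (tup (XG X) U) = ent (tup (X5 X) (insert 4 (U.map Fin.castSuccEmb))) := by
  apply ent_congr
  intro x x'
  rw [tup_eq, tup_eq]
  constructor
  · intro h i hi
    rcases Finset.mem_insert.mp hi with rfl | hi
    · obtain ⟨j, hj, hj3⟩ := hU
      have := h j hj
      unfold XG at this
      rw [if_neg hj3, if_neg hj3, Prod.mk.injEq] at this
      exact this.2
    · obtain ⟨j, hj, rfl⟩ := Finset.mem_map.mp hi
      rw [X5_low, X5_low]
      exact (Prod.mk.inj (h j hj)).1
  · intro h i hi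
    have h1 := h (Fin.castSuccEmb i) (Finset.mem_insert_of_mem (Finset.mem_map_of_mem _ hi))
    rw [X5_low, X5_low] at h1
    have h2 := h 4 (Finset.mem_insert_self _ _)
    rw [X5_top, X5_top] at h2
    unfold XG
    rw [h1]
    by_cases h3 : i = 3
    · rw [if_pos h3, if_pos h3]
      subst h3
      rw [h1]
    · rw [if_neg h3, if_neg h3, h2]

end step

/-- **The family of inequalities.** -/
theorem mat (k : ℕ) : ∀ (Ω β : Type) [Fintype Ω] [Nonempty Ω] (X : Fin 4 → Ω → β),
    0 ≤ Mm k (fun U => ent (tup X U)) := by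
  induction k with
  | zero =>
    intro Ω β _ _ X
    have h := ent_tup X {0,1} {0,2} {0} {0,1,2} (by decide) (by decide)
    unfold Mm
    push_cast
    linarith
  | succ k ih =>
    intro Ω β _ _ X
    have M := ih (CO (tup X {1,2})) (β × β) (XG X)
    unfold Mm at M
    beta_reduce at M
    -- the grouped functions
    rw [xg_eq X {0,1} (by decide), xg_eq X {0,2} (by decide), xg_eq X {1,2} (by decide), xg_eq X {0,3} (by decide),
      xg_eq X {1,3} (by decide), xg_eq X {0} (by decide), xg_eq X {1} (by decide), xg_eq X {2} (by decide),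
      xg_eq X {2,3} (by decide), xg_eq X {0,1,2} (by decide), xg_eq X {0,1,3} (by decide)] at M
    have m01 : (insert 4 (({0,1} : Finset (Fin 4)).map Fin.castSuccEmb) : Finset (Fin 5)) = {0,1,4} := by decide
    have m02 : (insert 4 (({0,2} : Finset (Fin 4)).map Fin.castSuccEmb) : Finset (Fin 5)) = {0,2,4} := by decide
    have m12 : (insert 4 (({1,2} : Finset (Fin 4)).map Fin.castSuccEmb) : Finset (Fin 5)) = {1,2,4} := by decide
    have m03 : (insert 4 (({0,3} : Finset (Fin 4)).map Fin.castSuccEmb) : Finset (Fin 5)) = {0,3,4} := by decide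
    have m13 : (insert 4 (({1,3} : Finset (Fin 4)).map Fin.castSuccEmb) : Finset (Fin 5)) = {1,3,4} := by decide
    have m0 : (insert 4 (({0} : Finset (Fin 4)).map Fin.castSuccEmb) : Finset (Fin 5)) = {0,4} := by decide
    have m1 : (insert 4 (({1} : Finset (Fin 4)).map Fin.castSuccEmb) : Finset (Fin 5)) = {1,4} := by decide
    have m2 : (insert 4 (({2} : Finset (Fin 4)).map Fin.castSuccEmb) : Finset (Fin 5)) = {2,4} := by decide
    have m23 : (insert 4 (({2,3} : Finset (Fin 4)).map Fin.castSuccEmb) : Finset (Fin 5)) = {2,3,4} := by decide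
    have m012 : (insert 4 (({0,1,2} : Finset (Fin 4)).map Fin.castSuccEmb) : Finset (Fin 5)) = {0,1,2,4} := by decide
    have m013 : (insert 4 (({0,1,3} : Finset (Fin 4)).map Fin.castSuccEmb) : Finset (Fin 5)) = {0,1,3,4} := by decide
    have me : (insert 4 ((∅ : Finset (Fin 4)).map Fin.castSuccEmb) : Finset (Fin 5)) = {4} := by decide
    have m123 : (insert 4 (({1,2,3} : Finset (Fin 4)).map Fin.castSuccEmb) : Finset (Fin 5)) = {1,2,3,4} := by decide
    have m0123 : (insert 4 (({0,1,2,3} : Finset (Fin 4)).map Fin.castSuccEmb) : Finset (Fin 5)) = {0,1,2,3,4} := by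
      decide
    rw [m01, m02, m12, m03, m13, m0, m1, m2, m23, m012, m013] at M
    -- the equalities
    have E1 := x5_r X ∅ (by decide)
    have E2 := x5_r X {1} (by decide)
    have E3 := x5_r X {2} (by decide)
    have E4 := x5_r X {1,2} (by decide)
    have E5 := x5_ci X {0,1,2} (by decide)
    have E6 := x5_ci X {1,2,3} (by decide)
    have E7 := x5_ci X {0,1,2,3} (by decide)
    rw [me, (by decide : (insert 0 (∅ : Finset (Fin 4))) = {0})] at E1
    rw [m1, (by decide : (insert 0 ({1} : Finset (Fin 4))) = {0,1})] at E2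
    rw [m2, (by decide : (insert 0 ({2} : Finset (Fin 4))) = {0,2})] at E3
    rw [m12, (by decide : (insert 0 ({1,2} : Finset (Fin 4))) = {0,1,2})] at E4
    rw [m012] at E5
    rw [m123] at E6
    rw [m0123] at E7
    -- the low sets
    have l0 : ent (tup (X5 X) {0}) = ent (tup X {0}) := x5_low X {0}
    have l1 : ent (tup (X5 X) {1}) = ent (tup X {1}) := x5_low X {1}
    have l2 : ent (tup (X5 X) {2}) = ent (tup X {2}) := x5_low X {2}
    have l01 : ent (tup (X5 X) {0,1}) = ent (tup X {0,1}) := by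
      rw [← x5_low X {0,1}, (by decide : (({0,1} : Finset (Fin 4)).map Fin.castSuccEmb) = {0,1})]
    have l02 : ent (tup (X5 X) {0,2}) = ent (tup X {0,2}) := by
      rw [← x5_low X {0,2}, (by decide : (({0,2} : Finset (Fin 4)).map Fin.castSuccEmb) = {0,2})]
    have l03 : ent (tup (X5 X) {0,3}) = ent (tup X {0,3}) := by
      rw [← x5_low X {0,3}, (by decide : (({0,3} : Finset (Fin 4)).map Fin.castSuccEmb) = {0,3})]
    have l13 : ent (tup (X5 X) {1,3}) = ent (tup X {1,3}) := by
      rw [← x5_low X {1,3}, (by decide : (({1,3} : Finset (Fin 4)).map Fin.castSuccEmb) = {1,3})]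
    have l23 : ent (tup (X5 X) {2,3}) = ent (tup X {2,3}) := by
      rw [← x5_low X {2,3}, (by decide : (({2,3} : Finset (Fin 4)).map Fin.castSuccEmb) = {2,3})]
    have l013 : ent (tup (X5 X) {0,1,3}) = ent (tup X {0,1,3}) := by
      rw [← x5_low X {0,1,3}, (by decide : (({0,1,3} : Finset (Fin 4)).map Fin.castSuccEmb) = {0,1,3})]
    have l123 : ent (tup (X5 X) {1,2,3}) = ent (tup X {1,2,3}) := by
      rw [← x5_low X {1,2,3}, (by decide : (({1,2,3} : Finset (Fin 4)).map Fin.castSuccEmb) = {1,2,3})]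
    have l0123 : ent (tup (X5 X) {0,1,2,3}) = ent (tup X {0,1,2,3}) := by
      rw [← x5_low X {0,1,2,3}, (by decide : (({0,1,2,3} : Finset (Fin 4)).map Fin.castSuccEmb) = {0,1,2,3})]
    -- the Shannon inequalities
    have I1 := ent_tup (X5 X) {0,3,4} {1,3,4} {3,4} {0,1,3,4} (by decide) (by decide)
    have I2 := ent_tup (X5 X) {0,1} {1,4} {1} {0,1,4} (by decide) (by decide)
    have I3 := ent_tup (X5 X) {0,2} {2,4} {2} {0,2,4} (by decide) (by decide)
    have I4 := ent_tup (X5 X) {1,2,3} {2,3,4} {2,3} {1,2,3,4} (by decide) (by decide)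
    have I5 := ent_tup (X5 X) {2,4} {3,4} {4} {2,3,4} (by decide) (by decide)
    have I6 := ent_tup (X5 X) {0,1,2,3} {0,1,3,4} {0,1,3} {0,1,2,3,4} (by decide) (by decide)
    have I7 := ent_tup (X5 X) {0,3} {0,4} {0} {0,3,4} (by decide) (by decide)
    have I8 := ent_tup (X5 X) {1,3} {1,4} {1} {1,3,4} (by decide) (by decide)
    rw [l01, l1] at I2
    rw [l02, l2] at I3
    rw [l123, l23] at I4
    rw [l0123, l013] at I6
    rw [l03, l0] at I7
    rw [l13, l1] at I8
    unfold Mm
    push_cast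
    exact mat_num k (Nat.cast_nonneg k) (ent (tup X {0})) (ent (tup X {1})) (ent (tup X {2})) (ent (tup (X5 X) {4}))
      (ent (tup X {0,1})) (ent (tup X {0,2})) (ent (tup X {1,2})) (ent (tup X {0,3})) (ent (tup X {1,3}))
      (ent (tup X {2,3})) (ent (tup (X5 X) {0,4})) (ent (tup (X5 X) {1,4})) (ent (tup (X5 X) {2,4}))
      (ent (tup (X5 X) {3,4})) (ent (tup X {0,1,2})) (ent (tup X {0,1,3})) (ent (tup X {1,2,3}))
      (ent (tup (X5 X) {0,1,4})) (ent (tup (X5 X) {0,2,4})) (ent (tup (X5 X) {1,2,4})) (ent (tup (X5 X) {0,3,4}))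
      (ent (tup (X5 X) {1,3,4})) (ent (tup (X5 X) {2,3,4})) (ent (tup X {0,1,2,3})) (ent (tup (X5 X) {0,1,2,4}))
      (ent (tup (X5 X) {0,1,3,4})) (ent (tup (X5 X) {1,2,3,4})) (ent (tup (X5 X) {0,1,2,3,4}))
      E1 E2 E3 E4 (by rw [E5]; ring) E6 E7 M I1 I2 I3 I4 I5 I6 I7 I8

end Pool.Agent.H211TP
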