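import Mathlib
import Pool.Agent.H211F52.Core

/-!
# The weighted version of the correspondence: balance and the forward direction
-/

set_option autoImplicit false

namespace Pool.Agent.H211TP

open Finset Classical Filter Pool.Agent.H211F52

variable {ℓ n : ℕ}

/-- The weight of a component. -/
noncomputable def wt (a b : Fin ℓ → ℝ) (k : Fin ℓ × Fin 3) : ℝ := if k.2 = 2 then b k.1 else a k.1

/-- The balance conditions for weights. -/
structure WBal (R : Fin ℓ → Finset (Fin n)) (a b : Fin ℓ → ℝ) : Prop where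
  na : ∀ j, 0 ≤ a j
  nb : ∀ j, 0 ≤ b j
  tot : ∑ j, a j = ∑ j, b j
  var : ∀ i, ∑ j, (if i ∈ R j then a j else 0) = ∑ j, (if i ∈ R j then b j else 0)

lemma wt_nonneg {R : Fin ℓ → Finset (Fin n)} {a b : Fin ℓ → ℝ} (h : WBal R a b) (k : Fin ℓ × Fin 3) :
    0 ≤ wt a b k := by
  unfold wt
  split_ifs
  · exact h.nb _
  · exact h.na _

lemma sum_wt (a b : Fin ℓ → ℝ) (f : Fin ℓ × Fin 3 → ℝ) :
    ∑ k, wt a b k * f k = ∑ j, (a j * (f (j, 0) + f (j, 1)) + b j * f (j, 2)) := by
  rw [Fintype.sum_prod_type]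
  refine Finset.sum_congr rfl fun j _ => ?_
  rw [Fin.sum_univ_three]
  have e0 : wt a b (j, 0) = a j := if_neg (by decide : (0 : Fin 3) ≠ 2)
  have e1 : wt a b (j, 1) = a j := if_neg (by decide : (1 : Fin 3) ≠ 2)
  have e2 : wt a b (j, 2) = b j := by unfold wt; rw [if_pos rfl]
  rw [e0, e1, e2]
  ring

lemma sum_wt' (a b : Fin ℓ → ℝ) : ∑ k, wt a b k = ∑ j, (2 * a j + b j) := by
  have := sum_wt a b (fun _ => 1)
  simp only [mul_one] at this
  rw [this]
  exact Finset.sum_congr rfl fun j _ => by ring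

/-- Every label has the same weight on both sides. -/
lemma wlabel {R : Fin ℓ → Finset (Fin n)} {a b : Fin ℓ → ℝ} (h : WBal R a b) (δ : PV ℓ n → ℝ) :
    ∑ k : Fin ℓ × Fin 3, wt a b k * ∑ q : {q : PV ℓ n × Bool // pres R R k q}, δ q.1.1 =
      (∑ k : Fin ℓ × Fin 3, wt a b k) * ∑ p, δ p := by
  have hsub : ∀ k : Fin ℓ × Fin 3, ∑ q : {q : PV ℓ n × Bool // pres R R k q}, δ q.1.1 =
      (∑ p, if pres R R k (p, false) then δ p else 0) + ∑ p, if pres R R k (p, true) then δ p else 0 := by
    intro k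
    rw [← Finset.sum_subtype (univ.filter (fun q => pres R R k q)) (fun q => by simp)
      (fun q : PV ℓ n × Bool => δ q.1), Finset.sum_filter, Fintype.sum_prod_type, ← Finset.sum_add_distrib]
    refine Finset.sum_congr rfl fun p _ => ?_
    rw [Fintype.sum_bool, add_comm]
  set D := ∑ p, δ p with hD
  set A : Finset (Fin n) → ℝ := fun U => ∑ p, if zs (ℓ := ℓ) U p then δ p else 0 with hA
  set y : Fin ℓ → PV ℓ n := fun j => Sum.inr (Sum.inl (some j)) with hy
  have hyj : ∀ j, ∑ p, (if p = y j then δ p else 0) = δ (y j) := by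
    intro j
    rw [Finset.sum_ite_eq' univ (y j) δ]
    simp
  have h0 : ∀ j, ∑ q : {q : PV ℓ n × Bool // pres R R (j, 0) q}, δ q.1.1 = A (R j) + δ (y j) := by
    intro j
    rw [hsub]
    have e1 : ∀ p : PV ℓ n, (if pres R R (j, 0) (p, true) then δ p else 0) = 0 := by
      intro p
      rw [if_neg]
      simp [pres]
    have e2 : ∀ p : PV ℓ n, (if pres R R (j, 0) (p, false) then δ p else 0) =
        (if zs (R j) p then δ p else 0) + (if p = y j then δ p else 0) := by
      intro p
      by_cases hp : p = y j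
      · subst hp
        simp [pres, zs, hy]
      · simp only [pres, hp, if_false, add_zero]
        simp only [hy] at hp
        simp [hp]
    rw [Finset.sum_congr rfl (fun p _ => e1 p), Finset.sum_const_zero, add_zero,
      Finset.sum_congr rfl (fun p _ => e2 p), Finset.sum_add_distrib, hyj]
  have h1 : ∀ j, ∑ q : {q : PV ℓ n × Bool // pres R R (j, 1) q}, δ q.1.1 = D - δ (y j) := by
    intro j
    rw [hsub]
    have e1 : ∀ p : PV ℓ n, (if pres R R (j, 1) (p, true) then δ p else 0) = 0 := by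
      intro p
      rw [if_neg]
      simp [pres]
    have e2 : ∀ p : PV ℓ n, (if pres R R (j, 1) (p, false) then δ p else 0) =
        δ p - if p = y j then δ p else 0 := by
      intro p
      by_cases hp : p = y j
      · simp [pres, hp, hy]
      · have hp' : p ≠ Sum.inr (Sum.inl (some j)) := hp
        rw [if_neg hp]
        simp [pres, hp']
    rw [Finset.sum_congr rfl (fun p _ => e1 p), Finset.sum_const_zero, add_zero,
      Finset.sum_congr rfl (fun p _ => e2 p), Finset.sum_sub_distrib, hyj]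
  have h2 : ∀ j, ∑ q : {q : PV ℓ n × Bool // pres R R (j, 2) q}, δ q.1.1 = 2 * D - A (R j) := by
    intro j
    rw [hsub]
    have e1 : ∀ p : PV ℓ n, (if pres R R (j, 2) (p, true) then δ p else 0) =
        δ p - if zs (ℓ := ℓ) (R j) p then δ p else 0 := by
      intro p
      by_cases hp : zs (ℓ := ℓ) (R j) p <;> simp [pres, hp]
    have e2 : ∀ p : PV ℓ n, (if pres R R (j, 2) (p, false) then δ p else 0) = δ p := by
      intro p
      simp [pres]
    rw [Finset.sum_congr rfl (fun p _ => e1 p), Finset.sum_congr rfl (fun p _ => e2 p), Finset.sum_sub_distrib]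
    ring
  have hbal : ∑ j, a j * A (R j) = ∑ j, b j * A (R j) := by
    have hAU : ∀ U, A U = (∑ u : Fin (ℓ + n + 4), δ (Sum.inl u)) + ∑ i : Fin n, (if i ∈ U then δ (Sum.inr (Sum.inr i)) else 0) := by
      intro U
      rw [hA]
      simp only
      rw [Fintype.sum_sum_type, Fintype.sum_sum_type]
      simp only [zs, if_true, if_false, Finset.sum_const_zero, zero_add]
      congr 1
      refine Finset.sum_congr rfl fun i _ => ?_
      by_cases hi : i ∈ U
      · rw [if_pos hi, if_pos hi]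
      · rw [if_neg hi, if_neg hi]
    have hcomm : ∀ w : Fin ℓ → ℝ, ∑ j, w j * A (R j) = (∑ j, w j) * (∑ u : Fin (ℓ + n + 4), δ (Sum.inl u)) +
        ∑ i : Fin n, (∑ j, if i ∈ R j then w j else 0) * δ (Sum.inr (Sum.inr i)) := by
      intro w
      simp only [hAU, mul_add]
      rw [Finset.sum_add_distrib, ← Finset.sum_mul]
      congr 1
      simp only [Finset.mul_sum, Finset.sum_mul]
      rw [Finset.sum_comm]
      refine Finset.sum_congr rfl fun i _ => Finset.sum_congr rfl fun j _ => ?_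
      by_cases hi : i ∈ R j <;> simp [hi]
    rw [hcomm a, hcomm b, h.tot]
    congr 1
    exact Finset.sum_congr rfl fun i _ => by rw [h.var i]
  rw [sum_wt, sum_wt']
  simp only [h0, h1, h2]
  have e3 : ∀ j, a j * (A (R j) + δ (y j) + (D - δ (y j))) + b j * (2 * D - A (R j)) =
      (a j * A (R j) - b j * A (R j)) + (a j * D + 2 * (b j * D)) := fun j => by ring
  rw [Finset.sum_congr rfl (fun j _ => e3 j), Finset.sum_add_distrib, Finset.sum_sub_distrib, hbal, sub_self, zero_add,
    Finset.sum_add_distrib, ← Finset.mul_sum, ← Finset.sum_mul, ← Finset.sum_mul, Finset.sum_add_distrib,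
    ← Finset.mul_sum, h.tot]
  ring

/-- The weighted information inequality for uniform distributions. -/
def WU (R : Fin ℓ → Finset (Fin n)) (a b : Fin ℓ → ℝ) : Prop :=
  ∀ (Ω : Type) [Fintype Ω] (X : Fin n → Ω → ℕ), ∑ j, a j * sl (tup X (R j)) ≤ ∑ j, b j * sl (tup X (R j))

lemma WU.gen {R : Fin ℓ → Finset (Fin n)} {a b : Fin ℓ → ℝ} (h : WU R a b) {Ω β : Type} [Fintype Ω]
    (X : Fin n → Ω → β) : ∑ j, a j * sl (tup X (R j)) ≤ ∑ j, b j * sl (tup X (R j)) := by
  obtain ⟨X', hX'⟩ := exists_nat_valued X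
  have h1 := h Ω X'
  have h2 : ∀ U : Finset (Fin n), sl (tup X' U) = sl (tup X U) := fun U =>
    sl_congr fun ω ω' => by
      rw [tup_eq, tup_eq]
      exact forall_congr' fun i => forall_congr' fun _ => hX' i ω ω'
  simpa only [h2] using h1

/-- Conditioning. -/
lemma sl_cond {Ω β δ : Type} [Fintype Ω] (Q : Ω → δ) (X : Fin n → Ω → β) (U : Finset (Fin n)) :
    sl (fun ω => (Q ω, tup X U ω)) =
      ∑ q ∈ univ.image Q, sl (Ω := {ω // Q ω = q}) (tup (fun i (ω : {ω // Q ω = q}) => X i ω.1) U) := by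
  unfold sl
  rw [← Finset.sum_fiberwise_of_maps_to (s := univ) (t := univ.image Q) (g := Q)
    (fun ω _ => Finset.mem_image_of_mem Q (Finset.mem_univ ω))]
  refine Finset.sum_congr rfl fun q _ => ?_
  rw [Finset.sum_subtype (p := fun ω => Q ω = q) (univ.filter (fun ω => Q ω = q)) (fun ω => by simp)
    (fun ω => Real.log (cs (fun ω => (Q ω, tup X U ω)) ω))]
  refine Finset.sum_congr rfl fun ω _ => ?_
  congr 2
  unfold cs
  symm
  refine Finset.card_bij (fun a _ => a.1) ?_ ?_ ?_
  · intro a ha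
    simp only [Finset.mem_filter, Finset.mem_univ, true_and, Prod.mk.injEq] at ha ⊢
    exact ⟨a.2.trans ω.2.symm, ha⟩
  · intro a _ b _ hab
    exact Subtype.ext hab
  · intro b hb
    simp only [Finset.mem_filter, Finset.mem_univ, true_and, Prod.mk.injEq] at hb
    exact ⟨⟨b, hb.1.trans ω.2⟩, by simp only [Finset.mem_filter, Finset.mem_univ, true_and]; exact hb.2, rfl⟩

lemma WU.cond {R : Fin ℓ → Finset (Fin n)} {a b : Fin ℓ → ℝ} (h : WU R a b) {Ω β δ : Type} [Fintype Ω]
    (Q : Ω → δ) (X : Fin n → Ω → β) :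
    ∑ j, a j * sl (fun ω => (Q ω, tup X (R j) ω)) ≤ ∑ j, b j * sl (fun ω => (Q ω, tup X (R j) ω)) := by
  simp only [sl_cond, Finset.mul_sum]
  rw [Finset.sum_comm, Finset.sum_comm (s := univ) (t := univ.image Q)]
  apply Finset.sum_le_sum
  intro q _
  exact h.gen _

section fwd

variable {Y : Type} [Fintype Y]

theorem wfwd_hc {R : Fin ℓ → Finset (Fin n)} {a b : Fin ℓ → ℝ} (hb : WBal R a b) (hU : WU R a b)
    (W : SimpleGraph Y) (hm : 0 < hc (PG R) W) :
    (∑ k, wt a b k) * Real.log (hc (PG R) W) ≤ ∑ k, wt a b k * Real.log (hc (CG R R k) W) := by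
  set m : ℕ := hc (PG R) W with hmdef
  have hmc : Fintype.card (HM R W) = m := by
    rw [hmdef]
    unfold hc
    rw [Nat.card_eq_fintype_card]
  have hne : Nonempty (HM R W) := by
    rw [← Fintype.card_pos_iff, hmc]
    exact hm
  have hm' : (0 : ℝ) < m := by exact_mod_cast hm
  have himg : ∀ k, 0 < hc (CG R R k) W := by
    intro k
    unfold hc
    rw [Nat.card_pos_iff]
    obtain ⟨φ⟩ := hne
    exact ⟨⟨⟨rc R k φ, rc_hom R k φ⟩⟩, inferInstance⟩
  have himg' : ∀ k, (0 : ℝ) < hc (CG R R k) W := fun k => by exact_mod_cast himg k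
  have h0 : ∀ k, (m : ℝ) * Real.log m - sl (rc (S := R) (W := W) R k) ≤ m * Real.log (hc (CG R R k) W) := by
    intro k
    have := sl_ge (rc (S := R) (W := W) R k) (hc (CG R R k) W) (by exact_mod_cast image_rc_card R W R k)
    rw [hmc] at this
    exact this
  have h2 : ∀ j, (m : ℝ) * Real.log m + sl (rz (S := R) (W := W) (R j)) ≤ m * Real.log (hc (CG R R (j, 2)) W) := by
    intro j
    have h3 := sl_le (rz (S := R) (W := W) (R j)) ((hc (CG R R (j, 2)) W : ℝ) / m) (div_pos (himg' _) hm') (by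
      rw [hmc, mul_div_cancel₀ _ hm'.ne']
      exact_mod_cast sum_cs_le R R W j)
    rw [hmc, Real.log_div (himg' _).ne' hm'.ne'] at h3
    linarith
  have hcond := hU.cond (fun (φ : HM R W) (u : Fin (ℓ + n + 4)) => φ.1 (Sum.inl u))
    (fun i (φ : HM R W) => φ.1 (Sum.inr (Sum.inr i)))
  simp only [← sl_rz] at hcond
  have h5 : ∀ j, (2 * a j + b j) * ((m : ℝ) * Real.log m) - a j * sl (rz (S := R) (W := W) (R j)) +
      b j * sl (rz (S := R) (W := W) (R j)) ≤
      m * (a j * (Real.log (hc (CG R R (j, 0)) W) + Real.log (hc (CG R R (j, 1)) W)) +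
        b j * Real.log (hc (CG R R (j, 2)) W)) := by
    intro j
    have e0 := h0 (j, 0)
    have e1 := h0 (j, 1)
    have e2 := h2 j
    have e3 := sl_sub R R W j
    have e4 : a j * (2 * ((m : ℝ) * Real.log m) - sl (rz (S := R) (W := W) (R j))) ≤
        a j * (m * Real.log (hc (CG R R (j, 0)) W) + m * Real.log (hc (CG R R (j, 1)) W)) :=
      mul_le_mul_of_nonneg_left (by linarith) (hb.na j)
    have e5 := mul_le_mul_of_nonneg_left e2 (hb.nb j)
    nlinarith
  have h6 := Finset.sum_le_sum fun j (_ : j ∈ (univ : Finset (Fin ℓ))) => h5 j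
  rw [Finset.sum_add_distrib, Finset.sum_sub_distrib, ← Finset.sum_mul, ← Finset.mul_sum] at h6
  rw [sum_wt, sum_wt']
  have h7 : (m : ℝ) * ((∑ j, (2 * a j + b j)) * Real.log m) ≤
      m * ∑ j, (a j * (Real.log (hc (CG R R (j, 0)) W) + Real.log (hc (CG R R (j, 1)) W)) +
        b j * Real.log (hc (CG R R (j, 2)) W)) := by
    have e : (m : ℝ) * ((∑ j, (2 * a j + b j)) * Real.log m) = (∑ j, (2 * a j + b j)) * (m * Real.log m) := by ring
    rw [e]
    linarith
  exact le_of_mul_le_mul_left h7 hm'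

lemma hc_pos_of_t_pos {V : Type} [Fintype V] (G : SimpleGraph V) (W : SimpleGraph Y) (h : 0 < t G W) :
    0 < hc G W := by
  rw [t_eq_hc] at h
  by_contra hcon
  have : hc G W = 0 := by omega
  rw [this] at h
  simp at h

/-- **Forward direction.** -/
theorem wfwd {R : Fin ℓ → Finset (Fin n)} {a b : Fin ℓ → ℝ} (hb : WBal R a b) (hU : WU R a b)
    [Nonempty Y] (W : SimpleGraph Y) (hm : 0 < t (PG R) W) :
    (∑ k, wt a b k) * Real.log (t (PG R) W) ≤ ∑ k, wt a b k * Real.log (t (CG R R k) W) := by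
  have hmc := hc_pos_of_t_pos (PG R) W hm
  have hne : Nonempty (HM R W) := by
    unfold hc at hmc
    rw [Nat.card_pos_iff] at hmc
    exact hmc.1
  have himg : ∀ k, (0 : ℝ) < hc (CG R R k) W := by
    intro k
    have : 0 < hc (CG R R k) W := by
      unfold hc
      rw [Nat.card_pos_iff]
      obtain ⟨φ⟩ := hne
      exact ⟨⟨⟨rc R k φ, rc_hom R k φ⟩⟩, inferInstance⟩
    exact_mod_cast this
  have hY : (0 : ℝ) < Fintype.card Y := by exact_mod_cast Fintype.card_pos
  have hmc' : (0 : ℝ) < hc (PG R) W := by exact_mod_cast hmc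
  have h1 := wfwd_hc hb hU W hmc
  have h2 := wlabel hb (fun _ => Real.log (Fintype.card Y))
  simp only [Finset.sum_const, Finset.card_univ, nsmul_eq_mul] at h2
  have e1 : Real.log (t (PG R) W) = Real.log (hc (PG R) W) - Fintype.card (PV ℓ n) * Real.log (Fintype.card Y) := by
    rw [t_eq_hc, Real.log_div hmc'.ne' (by positivity), Real.log_pow]
  have e2 : ∀ k, Real.log (t (CG R R k) W) = Real.log (hc (CG R R k) W) -
      Fintype.card {q : PV ℓ n × Bool // pres R R k q} * Real.log (Fintype.card Y) := by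
    intro k
    rw [t_eq_hc, Real.log_div (himg k).ne' (by positivity), Real.log_pow]
  rw [e1]
  simp only [e2, mul_sub]
  rw [Finset.sum_sub_distrib, h2]
  linarith

end fwd

end Pool.Agent.H211TP
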