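import Mathlib
import Pool.Agent.H211TP.Wt

/-!
# The weighted version of the correspondence: the backward direction
-/

set_option autoImplicit false

namespace Pool.Agent.H211TP

open Finset Classical Filter Pool.Agent.H211F52

variable {ℓ n : ℕ}

/-- The weighted inequality between homomorphism densities, in logarithmic form. -/
def WV (R : Fin ℓ → Finset (Fin n)) (a b : Fin ℓ → ℝ) : Prop :=
  ∀ (k : ℕ) (W : SimpleGraph (Fin (k + 1))), 0 < t (PG R) W → (∀ k', 0 < t (CG R R k') W) →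
    (∑ k', wt a b k') * Real.log (t (PG R) W) ≤ ∑ k', wt a b k' * Real.log (t (CG R R k') W)

lemma WV.le {R : Fin ℓ → Finset (Fin n)} {a b : Fin ℓ → ℝ} (h : WV R a b) {Ω : Type} [Fintype Ω] [Nonempty Ω]
    (W : SimpleGraph Ω) (h1 : 0 < t (PG R) W) (h2 : ∀ k', 0 < t (CG R R k') W) :
    (∑ k', wt a b k') * Real.log (t (PG R) W) ≤ ∑ k', wt a b k' * Real.log (t (CG R R k') W) := by
  obtain ⟨k, hk⟩ : ∃ k, Fintype.card Ω = k + 1 := ⟨Fintype.card Ω - 1, by have := Fintype.card_pos (α := Ω); omega⟩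
  let e : Fin (k + 1) ≃ Ω := (Fintype.equivFinOfCardEq hk).symm
  have := h k (W.comap e)
  simp only [t_target_iso] at this
  exact this h1 h2

section pos

variable {V Ω : Type} [Fintype V] [Fintype Ω]

lemma ws_pos (w : Ω → ℕ) (hw : ∀ a, 0 < w a) (G : SimpleGraph V) (W : SimpleGraph Ω) (f : V → Ω)
    (hf : IsHom G W f) : 0 < ws w G W := by
  unfold ws
  have h1 : 0 < (∏ a, (w (f a) : ℝ)) * ind (IsHom G W f) := by
    rw [ind_true hf, mul_one]
    exact Finset.prod_pos fun a _ => by exact_mod_cast hw (f a)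
  refine lt_of_lt_of_le h1 (Finset.single_le_sum (f := fun f : V → Ω => (∏ a, (w (f a) : ℝ)) * ind (IsHom G W f))
    (fun f _ => mul_nonneg (Finset.prod_nonneg fun _ _ => Nat.cast_nonneg _) (ind_nonneg _)) (Finset.mem_univ f))

end pos

section

variable {R : Fin ℓ → Finset (Fin n)} {a b : Fin ℓ → ℝ} {Γ β : Type}

lemma hom_const {V : Type} (T : SimpleGraph V) (lab : V → PV ℓ n) (hlab : ∀ u v, T.Adj u v → padj R (lab u) (lab v))
    (F : Fin n → Γ → β) (g : Γ) : IsHom T (WG R F) (fun v => (lab v, g)) :=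
  fun u v h => ⟨hlab u v h, fun _ _ _ _ => rfl, fun _ _ _ _ => rfl⟩

lemma cmp_const {V : Type} (T : SimpleGraph V) (lab : V → PV ℓ n) (F : Fin n → Γ → β) (g : Γ) :
    Cmp T lab F (fun _ => g) := fun _ _ _ _ _ _ _ => rfl

lemma card_cmp_pos {V : Type} [Finite V] [Finite Γ] [Nonempty Γ] (T : SimpleGraph V) (lab : V → PV ℓ n)
    (F : Fin n → Γ → β) : 0 < Nat.card {γ : V → Γ // Cmp T lab F γ} := by
  obtain ⟨g⟩ := (inferInstance : Nonempty Γ)
  have : Nonempty {γ : V → Γ // Cmp T lab F γ} := ⟨⟨fun _ => g, cmp_const T lab F g⟩⟩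
  exact Nat.card_pos

lemma topn_pos {V : Type} [Fintype V] [Finite Γ] [Nonempty Γ] (T : SimpleGraph V) (lab : V → PV ℓ n)
    (hlab : ∀ u v, T.Adj u v → padj R (lab u) (lab v)) (F : Fin n → Γ → β) : 0 < topn R T lab F := by
  obtain ⟨g⟩ := (inferInstance : Nonempty Γ)
  unfold topn
  have : Nonempty {f : V → PV ℓ n × Γ // IsHom T (WG R F) f ∧ ∑ a, om (f a).1 = ∑ a, om (lab a)} :=
    ⟨⟨fun v => (lab v, g), hom_const T lab hlab F g, rfl⟩⟩
  exact Nat.card_pos

lemma labk_hom (k : Fin ℓ × Fin 3) (u v : {q : PV ℓ n × Bool // pres R R k q}) (h : (CG R R k).Adj u v) :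
    padj R (labk R R k u) (labk R R k v) := h.1

/-- The inequality between the numbers of compatible assignments. -/
theorem wtop_ineq (hb : WBal R a b) (hv : WV R a b) [Fintype Γ] [Nonempty Γ]
    (F : Fin n → Γ → β) :
    (∑ k, wt a b k) * Real.log (Nat.card {γ : PV ℓ n → Γ // Cmp (PG R) id F γ}) ≤
      ∑ k, wt a b k * (Real.log (((ℓ + n + 4) ^ (ℓ + n + 4) : ℕ) : ℝ) +
        Real.log (Nat.card {γ // Cmp (CG R R k) (labk R R k) F γ})) := by
  have hid_b : ∀ (u : Fin (ℓ + n + 4)) (a : PV ℓ n), padj R (Sum.inl u) (id a) → (PG R).Adj (Sum.inl u) a :=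
    fun u a h => h
  have hid_c : ∀ (u : Fin (ℓ + n + 4)) (a : PV ℓ n), id a = Sum.inl u → a = Sum.inl u := fun u a h => h
  have hid_l : ∀ u v, (PG R).Adj u v → padj R (id u) (id v) := fun u v h => h
  have hlimP := (tendsto_ws (PG R) id (fun u => Sum.inl u) (fun u => rfl) hid_b hid_c F).log
    (by exact_mod_cast (topn_pos (PG R) id hid_l F).ne')
  have hlimC := fun k => (tendsto_ws (CG R R k) (labk R R k) (corek R R k) (corek_a k) (corek_b k) (corek_c k) F).log
    (by exact_mod_cast (topn_pos (CG R R k) (labk R R k) (labk_hom k) F).ne')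
  have hlimP' := hlimP.const_mul (∑ k, wt a b k)
  have hlimC' := tendsto_finsetSum (univ : Finset (Fin ℓ × Fin 3)) (fun k _ => (hlimC k).const_mul (wt a b k))
  obtain ⟨g⟩ := (inferInstance : Nonempty Γ)
  have hle : ∀ M : ℕ, (∑ k, wt a b k) * Real.log (ws (fun a : PV ℓ n × Γ => (M + 1) ^ om a.1) (PG R) (WG R F) /
      ∏ a : PV ℓ n, ((M + 1 : ℕ) : ℝ) ^ om (id a)) ≤ ∑ k : Fin ℓ × Fin 3, wt a b k *
      Real.log (ws (fun a : PV ℓ n × Γ => (M + 1) ^ om a.1) (CG R R k) (WG R F) /
      ∏ a, ((M + 1 : ℕ) : ℝ) ^ om (labk R R k a)) := by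
    intro M
    set w : PV ℓ n × Γ → ℕ := fun a => (M + 1) ^ om a.1 with hw
    have hwpos : ∀ a, 0 < w a := fun a => by rw [hw]; positivity
    have hne : Nonempty (Σ a : PV ℓ n × Γ, Fin (w a)) :=
      ⟨⟨(Sum.inl ⟨0, by omega⟩, g), ⟨0, hwpos _⟩⟩⟩
    have hN : 0 < ∑ a, w a := by
      refine Finset.sum_pos (fun a _ => hwpos a) ⟨(Sum.inl ⟨0, by omega⟩, g), Finset.mem_univ _⟩
    have hN' : (0 : ℝ) < ((∑ a, w a : ℕ) : ℝ) := by exact_mod_cast hN
    have pP : 0 < ws w (PG R) (WG R F) := ws_pos w hwpos _ _ _ (hom_const (PG R) id hid_l F g)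
    have pC : ∀ k, 0 < ws w (CG R R k) (WG R F) := fun k =>
      ws_pos w hwpos _ _ _ (hom_const (CG R R k) (labk R R k) (labk_hom k) F g)
    have h3 := hv.le ((WG R F).comap (Sigma.fst : (Σ a : PV ℓ n × Γ, Fin (w a)) → PV ℓ n × Γ))
      (by rw [t_blow]; positivity) (fun k => by rw [t_blow]; have := pC k; positivity)
    simp only [t_blow] at h3
    have hM : (0 : ℝ) < ((M + 1 : ℕ) : ℝ) := by positivity
    have e1 : Real.log (ws w (PG R) (WG R F) / ∏ a : PV ℓ n, ((M + 1 : ℕ) : ℝ) ^ om (id a)) =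
        Real.log (ws w (PG R) (WG R F)) - ∑ a : PV ℓ n, om a * Real.log ((M + 1 : ℕ) : ℝ) := by
      rw [Real.log_div pP.ne' (Finset.prod_pos fun _ _ => by positivity).ne',
        Real.log_prod (fun _ _ => by positivity)]
      congr 1
      exact Finset.sum_congr rfl fun a _ => by rw [Real.log_pow]; rfl
    have e2 : ∀ k, Real.log (ws w (CG R R k) (WG R F) / ∏ a, ((M + 1 : ℕ) : ℝ) ^ om (labk R R k a)) =
        Real.log (ws w (CG R R k) (WG R F)) -
          ∑ q : {q : PV ℓ n × Bool // pres R R k q}, om q.1.1 * Real.log ((M + 1 : ℕ) : ℝ) := by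
      intro k
      rw [Real.log_div (pC k).ne' (Finset.prod_pos fun _ _ => by positivity).ne',
        Real.log_prod (fun _ _ => by positivity)]
      congr 1
      exact Finset.sum_congr rfl fun a _ => by rw [Real.log_pow]; rfl
    have e3 : Real.log (ws w (PG R) (WG R F) / ((∑ a, w a : ℕ) : ℝ) ^ Fintype.card (PV ℓ n)) =
        Real.log (ws w (PG R) (WG R F)) - Fintype.card (PV ℓ n) * Real.log ((∑ a, w a : ℕ) : ℝ) := by
      rw [Real.log_div pP.ne' (by positivity), Real.log_pow]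
    have e4 : ∀ k, Real.log (ws w (CG R R k) (WG R F) / ((∑ a, w a : ℕ) : ℝ) ^
          Fintype.card {q : PV ℓ n × Bool // pres R R k q}) =
        Real.log (ws w (CG R R k) (WG R F)) -
          Fintype.card {q : PV ℓ n × Bool // pres R R k q} * Real.log ((∑ a, w a : ℕ) : ℝ) := by
      intro k
      rw [Real.log_div (pC k).ne' (by positivity), Real.log_pow]
    rw [e3] at h3
    simp only [e4, mul_sub] at h3
    rw [Finset.sum_sub_distrib] at h3
    have h4 := wlabel hb (fun _ => Real.log ((∑ a, w a : ℕ) : ℝ))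
    simp only [Finset.sum_const, Finset.card_univ, nsmul_eq_mul] at h4
    have h5 := wlabel hb (fun p => om p * Real.log ((M + 1 : ℕ) : ℝ))
    rw [h4] at h3
    rw [e1]
    simp only [e2, mul_sub]
    rw [Finset.sum_sub_distrib, h5]
    linarith
  have hlim := le_of_tendsto_of_tendsto' hlimP' hlimC' hle
  have hwt : 0 ≤ ∑ k, wt a b k := Finset.sum_nonneg fun k _ => wt_nonneg hb k
  calc (∑ k, wt a b k) * Real.log (Nat.card {γ : PV ℓ n → Γ // Cmp (PG R) id F γ})
      ≤ (∑ k, wt a b k) * Real.log (topn R (PG R) id F) := by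
        apply mul_le_mul_of_nonneg_left _ hwt
        apply Real.log_le_log
        · exact_mod_cast card_cmp_pos (PG R) id F
        · exact_mod_cast le_topn F
    _ ≤ ∑ k, wt a b k * Real.log (topn R (CG R R k) (labk R R k) F) := hlim
    _ ≤ _ := by
        apply Finset.sum_le_sum
        intro k _
        apply mul_le_mul_of_nonneg_left _ (wt_nonneg hb k)
        rw [← Real.log_mul (by positivity) (by exact_mod_cast (card_cmp_pos (CG R R k) (labk R R k) F).ne')]
        apply Real.log_le_log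
        · exact_mod_cast topn_pos (CG R R k) (labk R R k) (labk_hom k) F
        · exact_mod_cast topn_le (CG R R k) (labk R R k) (corek R R k) (corek_a k) (corek_b k) (corek_c k) F

/-- The inequality for class sizes of quasi-uniform systems. -/
theorem wqu_ineq (hb : WBal R a b) (hv : WV R a b) [Fintype Γ] [Nonempty Γ] (F : Fin n → Γ → β)
    (c : Finset (Fin n) → ℕ) (hq : ∀ U γ, cs (tup F U) γ = c U) :
    ∑ j, a j * Real.log (c (R j)) ≤ (∑ k, wt a b k) * Real.log (((ℓ + n + 4) ^ (ℓ + n + 4) : ℕ) : ℝ) +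
      ∑ j, b j * Real.log (c (R j)) := by
  have hcpos : ∀ U, 0 < c U := by
    intro U
    obtain ⟨g⟩ := (inferInstance : Nonempty Γ)
    rw [← hq U g]
    exact cs_pos _ _
  have hcpos' : ∀ U, (0 : ℝ) < c U := fun U => by exact_mod_cast hcpos U
  have hG : (0 : ℝ) < Fintype.card Γ := by exact_mod_cast Fintype.card_pos
  set LR : ℝ := Real.log (((ℓ + n + 4) ^ (ℓ + n + 4) : ℕ) : ℝ) with hLR
  set δ : PV ℓ n → ℝ := del R (fun U => (c U : ℝ) / Fintype.card Γ) with hδ
  have hδpos : ∀ p, 0 < δ p := fun p => del_pos c hcpos p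
  have h1 := wtop_ineq hb hv F
  have hP := card_cmp_pos (PG R) id F
  have hC := fun k => card_cmp_pos (CG R R k) (labk R R k) F
  have hP' : (0 : ℝ) < Nat.card {γ : PV ℓ n → Γ // Cmp (PG R) id F γ} := by exact_mod_cast hP
  have hC' : ∀ k, (0 : ℝ) < Nat.card {γ // Cmp (CG R R k) (labk R R k) F γ} := fun k => by exact_mod_cast hC k
  rw [card_cmp_eq] at hP'
  simp only [card_cmp_eq] at hC' h1
  have pP : 0 < av (fun γ : PV ℓ n → Γ => ind (Cmp (PG R) id F γ)) := by
    by_contra hcon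
    push Not at hcon
    have := mul_nonpos_of_nonneg_of_nonpos (pow_pos hG (Fintype.card (PV ℓ n))).le hcon
    linarith
  have pC : ∀ k, 0 < av (fun γ => ind (Cmp (CG R R k) (labk R R k) F γ)) := by
    intro k
    by_contra hcon
    push Not at hcon
    have := mul_nonpos_of_nonneg_of_nonpos
      (pow_pos hG (Fintype.card {q : PV ℓ n × Bool // pres R R k q})).le hcon
    have := hC' k
    linarith
  rw [Real.log_mul (by positivity) pP.ne', Real.log_pow] at h1
  have e1 : ∀ k, Real.log ((Fintype.card Γ : ℝ) ^ Fintype.card {q : PV ℓ n × Bool // pres R R k q} *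
      av (fun γ => ind (Cmp (CG R R k) (labk R R k) F γ))) =
      Fintype.card {q : PV ℓ n × Bool // pres R R k q} * Real.log (Fintype.card Γ) +
        Real.log (av (fun γ => ind (Cmp (CG R R k) (labk R R k) F γ))) := by
    intro k
    rw [Real.log_mul (by positivity) (pC k).ne', Real.log_pow]
  simp only [e1, mul_add] at h1
  rw [Finset.sum_add_distrib, Finset.sum_add_distrib] at h1
  have h2 := wlabel hb (fun _ => Real.log (Fintype.card Γ))
  simp only [Finset.sum_const, Finset.card_univ, nsmul_eq_mul] at h2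
  rw [h2, ← Finset.sum_mul] at h1
  have h3 : (∑ k, wt a b k) * Real.log (av (fun γ : PV ℓ n → Γ => ind (Cmp (PG R) id F γ))) ≤
      (∑ k, wt a b k) * LR + ∑ k, wt a b k * Real.log (av (fun γ => ind (Cmp (CG R R k) (labk R R k) F γ))) := by
    linarith
  have hwt : 0 ≤ ∑ k, wt a b k := Finset.sum_nonneg fun k _ => wt_nonneg hb k
  -- the lower bound for the main pattern
  have h4 : ∑ p, Real.log (δ p) ≤ Real.log (av (fun γ : PV ℓ n → Γ => ind (Cmp (PG R) id F γ))) := by
    rw [← Real.log_prod (fun p _ => (hδpos p).ne')]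
    exact Real.log_le_log (Finset.prod_pos fun p _ => hδpos p) (av_PG F c hq)
  have h5 := mul_le_mul_of_nonneg_left h4 hwt
  have h6 : ∀ j, Real.log ((c (R j) : ℝ) / Fintype.card Γ) +
      Real.log (av (fun γ => ind (Cmp (CG R R (j, 0)) (labk R R (j, 0)) F γ))) ≤
      ∑ q : {q : PV ℓ n × Bool // pres R R (j, 0) q}, Real.log (δ q.1.1) := by
    intro j
    rw [← Real.log_prod (fun q _ => (hδpos q.1.1).ne'), ← Real.log_mul (div_pos (hcpos' _) hG).ne' (pC _).ne']
    exact Real.log_le_log (mul_pos (div_pos (hcpos' _) hG) (pC _)) (av_C0 (T := R) F c hq j)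
  have h7 : ∀ j, Real.log (av (fun γ => ind (Cmp (CG R R (j, 1)) (labk R R (j, 1)) F γ))) ≤
      ∑ q : {q : PV ℓ n × Bool // pres R R (j, 1) q}, Real.log (δ q.1.1) := by
    intro j
    rw [← Real.log_prod (fun q _ => (hδpos q.1.1).ne')]
    exact Real.log_le_log (pC _) (av_C1 (T := R) F c hq j)
  have h8 : ∀ j, Real.log (av (fun γ => ind (Cmp (CG R R (j, 2)) (labk R R (j, 2)) F γ))) ≤
      Real.log ((c (R j) : ℝ) / Fintype.card Γ) +
      ∑ q : {q : PV ℓ n × Bool // pres R R (j, 2) q}, Real.log (δ q.1.1) := by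
    intro j
    rw [← Real.log_prod (fun q _ => (hδpos q.1.1).ne'), ← Real.log_mul (div_pos (hcpos' _) hG).ne'
      (Finset.prod_pos fun q _ => hδpos q.1.1).ne']
    exact Real.log_le_log (pC _) (av_C2 (S := R) (T := R) F c hq j)
  have h9 : ∑ k, wt a b k * Real.log (av (fun γ => ind (Cmp (CG R R k) (labk R R k) F γ))) ≤
      (∑ j, (b j - a j) * Real.log ((c (R j) : ℝ) / Fintype.card Γ)) +
        ∑ k, wt a b k * ∑ q : {q : PV ℓ n × Bool // pres R R k q}, Real.log (δ q.1.1) := by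
    rw [sum_wt, sum_wt, ← Finset.sum_add_distrib]
    apply Finset.sum_le_sum
    intro j _
    have e1 := mul_le_mul_of_nonneg_left (add_le_add (h6 j) (h7 j)) (hb.na j)
    have e2 := mul_le_mul_of_nonneg_left (h8 j) (hb.nb j)
    linarith
  rw [wlabel hb (fun p => Real.log (δ p))] at h9
  have h10 : ∑ j, (b j - a j) * Real.log ((c (R j) : ℝ) / Fintype.card Γ) =
      ∑ j, b j * Real.log (c (R j)) - ∑ j, a j * Real.log (c (R j)) := by
    have : ∀ j, (b j - a j) * Real.log ((c (R j) : ℝ) / Fintype.card Γ) =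
        (b j * Real.log (c (R j)) - a j * Real.log (c (R j))) - (b j * Real.log (Fintype.card Γ) -
          a j * Real.log (Fintype.card Γ)) := by
      intro j
      rw [Real.log_div (hcpos' _).ne' hG.ne']
      ring
    rw [Finset.sum_congr rfl (fun j _ => this j), Finset.sum_sub_distrib, Finset.sum_sub_distrib,
      Finset.sum_sub_distrib, ← Finset.sum_mul, ← Finset.sum_mul, hb.tot]
    ring
  rw [h10] at h9
  linarith

/-- A linear inequality between logarithms of class sizes, up to a constant, passes to the limit. -/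
lemma wsl_le_of_pc {Ω : Type} [Fintype Ω] (hab : ∑ j, a j = ∑ j, b j) (X : Fin n → Ω → β) (C : ℝ)
    (h : ∀ k : ℕ, ∑ j, a j * Real.log (pc X k (R j)) ≤ C + ∑ j, b j * Real.log (pc X k (R j))) :
    ∑ j, a j * sl (tup X (R j)) ≤ ∑ j, b j * sl (tup X (R j)) := by
  have h1 := tendsto_finsetSum (univ : Finset (Fin ℓ)) (fun j _ => (tendsto_pc X (R j)).const_mul (a j))
  have h2 := tendsto_finsetSum (univ : Finset (Fin ℓ)) (fun j _ => (tendsto_pc X (R j)).const_mul (b j))
  have h3 : Tendsto (fun k : ℕ => C * (1 / ((k : ℝ) + 1))) atTop (nhds (C * 0)) :=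
    tendsto_one_div_add_atTop_nhds_zero_nat.const_mul C
  have hs : ∀ (w : Fin ℓ → ℝ) (f : Fin ℓ → ℝ) (d e : ℝ), ∑ j, w j * (f j / d - e) =
      (∑ j, w j * f j) / d - (∑ j, w j) * e := by
    intro w f d e
    rw [Finset.sum_div, Finset.sum_mul, ← Finset.sum_sub_distrib]
    exact Finset.sum_congr rfl fun j _ => by ring
  have h4 := le_of_tendsto_of_tendsto' h1 (h3.add h2) (fun k => by
    have hk : (0 : ℝ) < (k : ℝ) + 1 := by positivity
    rw [hs, hs, hab]
    have := div_le_div_of_nonneg_right (h k) hk.le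
    rw [add_div] at this
    rw [mul_one_div]
    linarith)
  have hs2 : ∀ (w : Fin ℓ → ℝ) (f : Fin ℓ → ℝ) (e : ℝ), ∑ j, w j * (f j - e) =
      (∑ j, w j * f j) - (∑ j, w j) * e := by
    intro w f e
    rw [Finset.sum_mul, ← Finset.sum_sub_distrib]
    exact Finset.sum_congr rfl fun j _ => by ring
  rw [hs2, hs2, hab] at h4
  linarith

end

/-- **Backward direction.** -/
theorem wbwd {R : Fin ℓ → Finset (Fin n)} {a b : Fin ℓ → ℝ} (hb : WBal R a b) (hv : WV R a b) : WU R a b := by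
  intro Ω _ X
  apply wsl_le_of_pc hb.tot X ((∑ k, wt a b k) * Real.log (((ℓ + n + 4) ^ (ℓ + n + 4) : ℕ) : ℝ))
  intro k
  exact wqu_ineq hb hv (PF X k) (pc X k) (fun U σ => cs_PF X k U σ)

end Pool.Agent.H211TP
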