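import Mathlib
import Pool.Agent.H211TP.Mat
import Pool.Agent.H211TP.WBwd

/-!
# The weights of the family, and a system violating the conditional inequality quantitatively
-/

set_option autoImplicit false

namespace Pool.Agent.H211TP

open Finset Classical Pool.Agent.H211F52

/-- The sets of variables that occur. -/
def RR : Fin 11 → Finset (Fin 4) :=
  ![{0}, {1}, {2}, {0,1}, {0,2}, {1,2}, {0,3}, {1,3}, {2,3}, {0,1,2}, {0,1,3}]

/-- The weights of the positive terms. -/
noncomputable def aw (x y z : ℝ) : Fin 11 → ℝ := ![0, 0, 0, x + y + z, x + y + z, x + 2 * z, x, x, 0, 0, 0]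

/-- The weights of the negative terms. -/
noncomputable def bw (x y z : ℝ) : Fin 11 → ℝ := ![x + y, x + z, z, 0, 0, 0, 0, 0, x, x + y + 2 * z, x]

lemma sum11 (f : Fin 11 → ℝ) : ∑ j, f j = f 0 + f 1 + f 2 + f 3 + f 4 + f 5 + f 6 + f 7 + f 8 + f 9 + f 10 := by
  simp only [Fin.sum_univ_succ, Fin.sum_univ_zero, Fin.succ_zero_eq_one]
  simp only [Fin.succ_one_eq_two, add_zero]
  ring_nf
  rfl

lemma aw_sum (x y z : ℝ) (f : Fin 11 → ℝ) : ∑ j, aw x y z j * f j =
    (x + y + z) * f 3 + (x + y + z) * f 4 + (x + 2 * z) * f 5 + x * f 6 + x * f 7 := by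
  rw [sum11]
  simp only [aw]
  simp

lemma bw_sum (x y z : ℝ) (f : Fin 11 → ℝ) : ∑ j, bw x y z j * f j =
    (x + y) * f 0 + (x + z) * f 1 + z * f 2 + x * f 8 + (x + y + 2 * z) * f 9 + x * f 10 := by
  rw [sum11]
  simp only [bw]
  simp

lemma wbal {x y z : ℝ} (hx : 0 ≤ x) (hy : 0 ≤ y) (hz : 0 ≤ z) : WBal RR (aw x y z) (bw x y z) where
  na := by
    intro j
    fin_cases j <;> simp [aw] <;> positivity
  nb := by
    intro j
    fin_cases j <;> simp [bw] <;> positivity
  tot := by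
    have h1 := aw_sum x y z (fun _ => 1)
    have h2 := bw_sum x y z (fun _ => 1)
    simp only [mul_one] at h1 h2
    rw [h1, h2]
    ring
  var := by
    intro i
    have h1 := aw_sum x y z (fun j => if i ∈ RR j then 1 else 0)
    have h2 := bw_sum x y z (fun j => if i ∈ RR j then 1 else 0)
    simp only [mul_ite, mul_one, mul_zero] at h1 h2
    rw [h1, h2]
    fin_cases i <;> simp [RR] <;> ring

/-- The values of `sl` in terms of entropies. -/
lemma sl_eq_ent {Ω α : Type} [Fintype Ω] [Nonempty Ω] (f : Ω → α) :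
    sl f = Fintype.card Ω * (Real.log (Fintype.card Ω) - ent f) := by
  have : (0 : ℝ) < Fintype.card Ω := by exact_mod_cast Fintype.card_pos
  unfold ent
  field_simp
  ring

lemma wu_of {x y z : ℝ} (h : ∀ (Ω : Type) [Fintype Ω] [Nonempty Ω] (X : Fin 4 → Ω → ℕ),
    0 ≤ x * (ent (tup X {0,1}) + ent (tup X {0,2}) + ent (tup X {1,2}) + ent (tup X {0,3}) + ent (tup X {1,3}) -
      ent (tup X {0}) - ent (tup X {1}) - ent (tup X {2,3}) - ent (tup X {0,1,2}) - ent (tup X {0,1,3})) +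
      y * (ent (tup X {0,1}) + ent (tup X {0,2}) - ent (tup X {0}) - ent (tup X {0,1,2})) +
      z * ((ent (tup X {0,2}) + ent (tup X {1,2}) - ent (tup X {2}) - ent (tup X {0,1,2})) +
        (ent (tup X {0,1}) + ent (tup X {1,2}) - ent (tup X {1}) - ent (tup X {0,1,2})))) :
    WU RR (aw x y z) (bw x y z) := by
  intro Ω _ X
  rw [aw_sum, bw_sum]
  rcases isEmpty_or_nonempty Ω with hE | hE
  · have h0 : ∀ U, sl (tup X U) = 0 := by
      intro U
      unfold sl
      exact Finset.sum_eq_zero fun ω _ => hE.elim ω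
    simp only [h0]
    simp
  · have h1 := h Ω X
    have hN : (0 : ℝ) < Fintype.card Ω := by exact_mod_cast Fintype.card_pos
    have h2 := mul_nonneg hN.le h1
    simp only [sl_eq_ent]
    change (x + y + z) * (Fintype.card Ω * (Real.log (Fintype.card Ω) - ent (tup X {0,1}))) +
      (x + y + z) * (Fintype.card Ω * (Real.log (Fintype.card Ω) - ent (tup X {0,2}))) +
      (x + 2 * z) * (Fintype.card Ω * (Real.log (Fintype.card Ω) - ent (tup X {1,2}))) +
      x * (Fintype.card Ω * (Real.log (Fintype.card Ω) - ent (tup X {0,3}))) +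
      x * (Fintype.card Ω * (Real.log (Fintype.card Ω) - ent (tup X {1,3}))) ≤
      (x + y) * (Fintype.card Ω * (Real.log (Fintype.card Ω) - ent (tup X {0}))) +
      (x + z) * (Fintype.card Ω * (Real.log (Fintype.card Ω) - ent (tup X {1}))) +
      z * (Fintype.card Ω * (Real.log (Fintype.card Ω) - ent (tup X {2}))) +
      x * (Fintype.card Ω * (Real.log (Fintype.card Ω) - ent (tup X {2,3}))) +
      (x + y + 2 * z) * (Fintype.card Ω * (Real.log (Fintype.card Ω) - ent (tup X {0,1,2}))) +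
      x * (Fintype.card Ω * (Real.log (Fintype.card Ω) - ent (tup X {0,1,3})))
    nlinarith

/-- The family is valid. -/
lemma wu_mat (k : ℕ) : WU RR (aw k 1 (k * (k + 1) / 2)) (bw k 1 (k * (k + 1) / 2)) := by
  apply wu_of
  intro Ω _ _ X
  have := mat k Ω ℕ X
  unfold Mm at this
  linarith

lemma wu_delta : WU RR (aw 0 0 1) (bw 0 0 1) := by
  apply wu_of
  intro Ω _ _ X
  have h1 := ent_tup X {0,2} {1,2} {2} {0,1,2} (by decide) (by decide)
  have h2 := ent_tup X {0,1} {1,2} {1} {0,1,2} (by decide) (by decide)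
  linarith

/-! ### The example -/

/-- The sizes of the blocks. -/
def bs (m : ℕ) : Fin 4 → ℕ := ![m, m, m, 1]

/-- The values on the blocks. -/
def xv : Fin 4 → Fin 4 → ℕ := ![![0,0,1,0], ![0,1,0,0], ![0,1,0,1], ![0,0,1,1]]

/-- The space of the example. -/
abbrev EO (m : ℕ) : Type := Σ b : Fin 4, Fin (bs m b)

/-- The functions of the example. -/
def EX (m : ℕ) (i : Fin 4) (ω : EO m) : ℕ := xv i ω.1

lemma sl_ex (m : ℕ) (U : Finset (Fin 4)) : sl (tup (EX m) U) =
    ∑ b : Fin 4, (bs m b : ℝ) * Real.log (∑ b' : Fin 4, if (∀ i ∈ U, xv i b' = xv i b) then (bs m b' : ℝ) else 0) := by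
  unfold sl
  rw [Fintype.sum_sigma]
  refine Finset.sum_congr rfl fun b _ => ?_
  have h1 : ∀ k : Fin (bs m b), (cs (tup (EX m) U) ⟨b, k⟩ : ℝ) =
      ∑ b' : Fin 4, if (∀ i ∈ U, xv i b' = xv i b) then (bs m b' : ℝ) else 0 := by
    intro k
    unfold cs
    rw [Finset.card_filter]
    push_cast
    rw [Fintype.sum_sigma]
    refine Finset.sum_congr rfl fun b' _ => ?_
    have h2 : ∀ k' : Fin (bs m b'), (if tup (EX m) U ⟨b', k'⟩ = tup (EX m) U ⟨b, k⟩ then (1 : ℝ) else 0) =
        if (∀ i ∈ U, xv i b' = xv i b) then 1 else 0 := by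
      intro k'
      have : tup (EX m) U ⟨b', k'⟩ = tup (EX m) U ⟨b, k⟩ ↔ ∀ i ∈ U, xv i b' = xv i b := by
        rw [tup_eq]
        rfl
      by_cases hc : ∀ i ∈ U, xv i b' = xv i b
      · rw [if_pos hc, if_pos (this.mpr hc)]
      · rw [if_neg hc, if_neg (fun h => hc (this.mp h))]
    rw [Finset.sum_congr rfl (fun k' _ => h2 k'), Finset.sum_const, Finset.card_univ, Fintype.card_fin, nsmul_eq_mul]
    by_cases hc : ∀ i ∈ U, xv i b' = xv i b
    · rw [if_pos hc, if_pos hc, mul_one]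
    · rw [if_neg hc, if_neg hc, mul_zero]
  rw [Finset.sum_congr rfl (fun k _ => by rw [h1 k]), Finset.sum_const, Finset.card_univ, Fintype.card_fin,
    nsmul_eq_mul]

lemma ex_values (m : ℕ) :
    sl (tup (EX m) {0}) = (2 * m + 1) * Real.log (2 * m + 1) + m * Real.log m ∧
    sl (tup (EX m) {1}) = (2 * m + 1) * Real.log (2 * m + 1) + m * Real.log m ∧
    sl (tup (EX m) {2}) = 2 * m * Real.log (2 * m) + (m + 1) * Real.log (m + 1) ∧
    sl (tup (EX m) {0,1}) = (m + 1) * Real.log (m + 1) + 2 * (m * Real.log m) ∧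
    sl (tup (EX m) {0,2}) = (m + 1) * Real.log (m + 1) + 2 * (m * Real.log m) ∧
    sl (tup (EX m) {1,2}) = 2 * m * Real.log (2 * m) + m * Real.log m ∧
    sl (tup (EX m) {0,3}) = 2 * m * Real.log (2 * m) + m * Real.log m ∧
    sl (tup (EX m) {1,3}) = (m + 1) * Real.log (m + 1) + 2 * (m * Real.log m) ∧
    sl (tup (EX m) {2,3}) = 3 * (m * Real.log m) ∧
    sl (tup (EX m) {0,1,2}) = 3 * (m * Real.log m) ∧
    sl (tup (EX m) {0,1,3}) = 3 * (m * Real.log m) := by
  refine ⟨?_, ?_, ?_, ?_, ?_, ?_, ?_, ?_, ?_, ?_, ?_⟩ <;>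
  · rw [sl_ex]
    simp [Fin.sum_univ_four, bs, xv]
    ring_nf

/-- No multiple of the conditions makes up for the failure of the Ingleton inequality. -/
theorem not_wu (c : ℝ) (hc : 0 ≤ c) : ¬ WU RR (aw 1 0 c) (bw 1 0 c) := by
  intro h
  obtain ⟨m, hm⟩ := exists_nat_gt (Real.exp ((2 + c) * (Real.log 3 + 1)))
  have hm1 : (1 : ℝ) ≤ m := by
    have h3 : 0 ≤ Real.log 3 := Real.log_nonneg (by norm_num)
    have : (1 : ℝ) ≤ Real.exp ((2 + c) * (Real.log 3 + 1)) := Real.one_le_exp (by positivity)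
    linarith
  have hm0 : (0 : ℝ) < m := by linarith
  have h1 := h (EO m) (EX m)
  rw [aw_sum, bw_sum] at h1
  obtain ⟨e0, e1, e2, e01, e02, e12, e03, e13, e23, e012, e013⟩ := ex_values m
  change (1 + 0 + c) * sl (tup (EX m) {0,1}) + (1 + 0 + c) * sl (tup (EX m) {0,2}) +
    (1 + 2 * c) * sl (tup (EX m) {1,2}) + 1 * sl (tup (EX m) {0,3}) + 1 * sl (tup (EX m) {1,3}) ≤
    (1 + 0) * sl (tup (EX m) {0}) + (1 + c) * sl (tup (EX m) {1}) + c * sl (tup (EX m) {2}) +
    1 * sl (tup (EX m) {2,3}) + (1 + 0 + 2 * c) * sl (tup (EX m) {0,1,2}) + 1 * sl (tup (EX m) {0,1,3}) at h1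
  rw [e0, e1, e2, e01, e02, e12, e03, e13, e23, e012, e013] at h1
  -- the two differences
  have hP : Real.log m ≤ ((m : ℝ) + 1) * Real.log (m + 1) - m * Real.log m := by
    have h2 := Real.log_le_log hm0 (by linarith : (m : ℝ) ≤ m + 1)
    nlinarith
  have hT : (2 * (m : ℝ) + 1) * Real.log (2 * m + 1) - 2 * m * Real.log (2 * m) ≤ Real.log m + (Real.log 3 + 1) := by
    have h2 : Real.log (2 * m + 1) ≤ Real.log (2 * m) + 1 / (2 * m) := by
      have h3 := Real.log_le_sub_one_of_pos (by positivity : (0 : ℝ) < (2 * m + 1) / (2 * m))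
      rw [Real.log_div (by positivity) (by positivity)] at h3
      have h4 : (2 * (m : ℝ) + 1) / (2 * m) - 1 = 1 / (2 * m) := by field_simp; ring
      linarith
    have h5 : 2 * (m : ℝ) * Real.log (2 * m + 1) ≤ 2 * m * Real.log (2 * m) + 1 := by
      have := mul_le_mul_of_nonneg_left h2 (by positivity : (0 : ℝ) ≤ 2 * m)
      rw [mul_add, mul_one_div_cancel (by positivity)] at this
      exact this
    have h6 : Real.log (2 * m + 1) ≤ Real.log 3 + Real.log m := by
      rw [← Real.log_mul (by norm_num) hm0.ne']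
      exact Real.log_le_log (by positivity) (by linarith)
    linarith
  have hlm : (2 + c) * (Real.log 3 + 1) < Real.log m := by
    rw [Real.lt_log_iff_exp_lt hm0]
    exact hm
  have hP' := mul_le_mul_of_nonneg_left hP (by linarith : 0 ≤ 3 + c)
  have hT' := mul_le_mul_of_nonneg_left hT (by linarith : 0 ≤ 2 + c)
  nlinarith

end Pool.Agent.H211TP
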