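import Mathlib

/-!
# Farkas' lemma for finitely many linear functionals
-/

set_option autoImplicit false

namespace Pool.Agent.H211TP

/-- Farkas' lemma. -/
theorem farkas {E : Type} [AddCommGroup E] [Module ℝ E] (m : ℕ) : ∀ (β : Fin m → E →ₗ[ℝ] ℝ) (A : E →ₗ[ℝ] ℝ),
    (∀ y, (∀ i, 0 ≤ β i y) → 0 ≤ A y) → ∃ c : Fin m → ℝ, (∀ i, 0 ≤ c i) ∧ ∀ y, A y = ∑ i, c i * β i y := by
  induction m with
  | zero =>
    intro β A h
    refine ⟨fun _ => 0, fun _ => le_rfl, fun y => ?_⟩
    have h1 := h y (fun i => i.elim0)
    have h2 := h (-y) (fun i => i.elim0)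
    rw [map_neg] at h2
    simp only [Finset.univ_eq_empty, Finset.sum_empty]
    linarith
  | succ m ih =>
    intro β A h
    by_cases hc : ∀ y, (∀ i : Fin m, 0 ≤ β i.castSucc y) → 0 ≤ A y
    · obtain ⟨c, hc0, hc1⟩ := ih (fun i => β i.castSucc) A hc
      refine ⟨Fin.snoc c 0, fun i => ?_, fun y => ?_⟩
      · refine Fin.lastCases ?_ (fun i => ?_) i
        · rw [Fin.snoc_last]
        · rw [Fin.snoc_castSucc]; exact hc0 i
      · rw [Fin.sum_univ_castSucc]
        simp only [Fin.snoc_castSucc, Fin.snoc_last, zero_mul, add_zero]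
        exact hc1 y
    · push Not at hc
      obtain ⟨v0, hv0, hA0⟩ := hc
      have hl : β (Fin.last m) v0 < 0 := by
        by_contra hcon
        push Not at hcon
        have := h v0 (fun i => Fin.lastCases hcon (fun i => hv0 i) i)
        linarith
      -- rescale
      set r : ℝ := -(β (Fin.last m) v0)⁻¹ with hr
      have hrpos : 0 < r := by
        rw [hr, neg_pos]
        exact inv_lt_zero.mpr hl
      set v : E := r • v0 with hv
      have hvl : β (Fin.last m) v = -1 := by
        rw [hv, map_smul, smul_eq_mul, hr, neg_mul, inv_mul_cancel₀ hl.ne]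
      have hvi : ∀ i : Fin m, 0 ≤ β i.castSucc v := by
        intro i
        rw [hv, map_smul, smul_eq_mul]
        exact mul_nonneg hrpos.le (hv0 i)
      have hAv : A v < 0 := by
        rw [hv, map_smul, smul_eq_mul]
        exact mul_neg_of_pos_of_neg hrpos hA0
      obtain ⟨c, hc0, hc1⟩ := ih (fun i => β i.castSucc + (β i.castSucc v) • β (Fin.last m))
        (A + (A v) • β (Fin.last m)) (by
          intro y hy
          have h1 : ∀ i : Fin (m + 1), 0 ≤ β i (y + (β (Fin.last m) y) • v) := by
            intro i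
            refine Fin.lastCases ?_ (fun i => ?_) i
            · rw [map_add, map_smul, smul_eq_mul, hvl]
              linarith
            · have := hy i
              simp only [LinearMap.add_apply, LinearMap.smul_apply, smul_eq_mul] at this
              rw [map_add, map_smul, smul_eq_mul]
              linarith
          have h2 := h _ h1
          rw [map_add, map_smul, smul_eq_mul] at h2
          simp only [LinearMap.add_apply, LinearMap.smul_apply, smul_eq_mul]
          linarith)
      refine ⟨Fin.snoc c ((∑ i, c i * β i.castSucc v) - A v), fun i => ?_, fun y => ?_⟩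
      · refine Fin.lastCases ?_ (fun i => ?_) i
        · rw [Fin.snoc_last]
          have : 0 ≤ ∑ i, c i * β i.castSucc v := Finset.sum_nonneg fun i _ => mul_nonneg (hc0 i) (hvi i)
          linarith
        · rw [Fin.snoc_castSucc]; exact hc0 i
      · rw [Fin.sum_univ_castSucc]
        simp only [Fin.snoc_castSucc, Fin.snoc_last]
        have h3 := hc1 y
        simp only [LinearMap.add_apply, LinearMap.smul_apply, smul_eq_mul, mul_add] at h3
        rw [Finset.sum_add_distrib] at h3
        have h4 : ∑ i, c i * (β i.castSucc v * β (Fin.last m) y) = (∑ i, c i * β i.castSucc v) * β (Fin.last m) y := by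
          rw [Finset.sum_mul]
          exact Finset.sum_congr rfl fun i _ => by ring
        rw [h4] at h3
        linarith

/-- On a polyhedral cone, a functional that is nonnegative on the face cut out by a nonnegative functional becomes
nonnegative when a multiple of the latter is added. -/
theorem face {E : Type} [AddCommGroup E] [Module ℝ E] (m : ℕ) (α : Fin m → E →ₗ[ℝ] ℝ) (A D : E →ₗ[ℝ] ℝ)
    (hA : ∀ y, (∀ i, 0 ≤ α i y) → D y = 0 → 0 ≤ A y) (hD : ∀ y, (∀ i, 0 ≤ α i y) → 0 ≤ D y) :
    ∃ c : ℝ, 0 ≤ c ∧ ∀ y, (∀ i, 0 ≤ α i y) → 0 ≤ A y + c * D y := by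
  obtain ⟨c, hc0, hc1⟩ := farkas (m + 1) (Fin.snoc α (-D) : Fin (m + 1) → E →ₗ[ℝ] ℝ) A (by
    intro y hy
    have h1 : ∀ i, 0 ≤ α i y := fun i => by
      have := hy i.castSucc
      rwa [Fin.snoc_castSucc] at this
    have h2 := hy (Fin.last m)
    rw [Fin.snoc_last, LinearMap.neg_apply] at h2
    have h3 := hD y h1
    exact hA y h1 (by linarith))
  refine ⟨c (Fin.last m), hc0 _, fun y hy => ?_⟩
  have h1 := hc1 y
  rw [Fin.sum_univ_castSucc, Fin.snoc_last, LinearMap.neg_apply] at h1
  have h2 : 0 ≤ ∑ i : Fin m, c i.castSucc * (Fin.snoc α (-D) : Fin (m + 1) → E →ₗ[ℝ] ℝ) i.castSucc y :=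
    Finset.sum_nonneg fun i _ => mul_nonneg (hc0 _) (by rw [Fin.snoc_castSucc]; exact hy i)
  linarith

end Pool.Agent.H211TP
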