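import Mathlib
import Pool.Agent.H211TP.Ex
import Pool.Agent.H211TP.Farkas
import Pool.Agent.H211TP.Def

/-!
# A graph profile whose tropicalization is not polyhedral
-/

set_option autoImplicit false

namespace Pool.Agent.H211TP

open Finset Classical Pool.Agent.H211F52

/-! ### The collection -/

/-- The index set of the collection. -/
abbrev IX : Type := Option (Fin 11 × Fin 3)

/-- The vertices of the graphs of the collection. -/
def cv : IX → Type
  | none => PV 11 4
  | some k => {q : PV 11 4 × Bool // pres RR RR k q}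

/-- The graphs of the collection. -/
def cg : ∀ o : IX, SimpleGraph (cv o)
  | none => PG RR
  | some k => CG RR RR k

noncomputable instance (o : IX) : Fintype (cv o) := by
  rcases o with _ | k
  · exact inferInstanceAs (Fintype (PV 11 4))
  · exact inferInstanceAs (Fintype {q : PV 11 4 × Bool // pres RR RR k q})

/-- The number of graphs. -/
noncomputable def ns : ℕ := Fintype.card IX

/-- The numbering of the graphs. -/
noncomputable def ee : IX ≃ Fin ns := Fintype.equivFin IX

/-- The numbers of vertices. -/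
noncomputable def nv (i : Fin ns) : ℕ := Fintype.card (cv (ee.symm i))

/-- The graphs on `Fin`. -/
noncomputable def cf (i : Fin ns) : SimpleGraph (Fin (nv i)) :=
  (cg (ee.symm i)).comap (Fintype.equivFin (cv (ee.symm i))).symm

lemma dens_comap {V : Type} [Fintype V] (G : SimpleGraph V) {v : ℕ} (f : Fin v ≃ V) {k : ℕ}
    (W : SimpleGraph (Fin (k + 1))) : dens (G.comap f) W = t G W := by
  have hv : Fintype.card V = v := by rw [← Fintype.card_congr f, Fintype.card_fin]
  rw [t_eq_hc, hv, Fintype.card_fin]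
  unfold dens hc
  congr 2
  refine Nat.card_congr
    { toFun := fun g => ⟨fun a => g (f.symm a), fun a b hab => g.map_rel (by
        rw [SimpleGraph.comap_adj, Equiv.apply_symm_apply, Equiv.apply_symm_apply]; exact hab)⟩
      invFun := fun g => ⟨fun a => g.1 (f a), fun {a b} hab => g.2 _ _ hab⟩
      left_inv := fun g => ?_
      right_inv := fun g => ?_ }
  · ext a
    simp
  · apply Subtype.ext
    funext a
    simp

lemma dens_cf (i : Fin ns) {k : ℕ} (W : SimpleGraph (Fin (k + 1))) : dens (cf i) W = t (cg (ee.symm i)) W :=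
  dens_comap _ _ _

lemma dens_none {k : ℕ} (W : SimpleGraph (Fin (k + 1))) : dens (cf (ee none)) W = t (PG RR) W := by
  rw [dens_cf]
  have : ∀ o : IX, o = none → t (cg o) W = t (PG RR) W := by
    rintro _ rfl
    rfl
  exact this _ (Equiv.symm_apply_apply _ _)

lemma dens_some (k' : Fin 11 × Fin 3) {k : ℕ} (W : SimpleGraph (Fin (k + 1))) :
    dens (cf (ee (some k'))) W = t (CG RR RR k') W := by
  rw [dens_cf]
  have : ∀ o : IX, o = some k' → t (cg o) W = t (CG RR RR k') W := by
    rintro _ rfl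
    rfl
  exact this _ (Equiv.symm_apply_apply _ _)

/-! ### The functionals -/

/-- The functional attached to weights. -/
noncomputable def LF (a b : Fin 11 → ℝ) : (Fin ns → ℝ) →ₗ[ℝ] ℝ :=
  (∑ k, wt a b k • LinearMap.proj (ee (some k))) - (∑ k, wt a b k) • LinearMap.proj (ee none)

lemma LF_apply (a b : Fin 11 → ℝ) (y : Fin ns → ℝ) :
    LF a b y = ∑ k, wt a b k * y (ee (some k)) - (∑ k, wt a b k) * y (ee none) := by
  unfold LF
  simp [LinearMap.sum_apply]

lemma LF_cont (a b : Fin 11 → ℝ) : Continuous (LF a b) := by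
  have : (LF a b : (Fin ns → ℝ) → ℝ) = fun y => ∑ k, wt a b k * y (ee (some k)) - (∑ k, wt a b k) * y (ee none) := by
    funext y
    exact LF_apply a b y
  rw [this]
  fun_prop

lemma LF_nonneg {a b : Fin 11 → ℝ} (hb : WBal RR a b) (hU : WU RR a b) (y : Fin ns → ℝ) (hy : y ∈ trop nv cf) :
    0 ≤ LF a b y := by
  have hclosed : IsClosed {y | 0 ≤ LF a b y} := isClosed_le continuous_const (LF_cont a b)
  refine (closure_minimal ?_ hclosed) hy
  intro z hz
  refine Submodule.span_induction (p := fun z _ => 0 ≤ LF a b z) ?_ ?_ ?_ ?_ hz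
  · rintro z ⟨y, hy, hpos, rfl⟩
    by_contra hcon
    push Not at hcon
    -- near `y` the functional is negative
    have hcont : ContinuousAt (fun y : Fin ns → ℝ => LF a b (fun i => Real.log (y i))) y := by
      refine (LF_cont a b).continuousAt.comp ?_
      exact continuousAt_pi.mpr fun i => (continuousAt_apply i y).log (hpos i).ne'
    have hev : ∀ᶠ z in nhds y, LF a b (fun i => Real.log (z i)) < 0 := hcont.eventually (gt_mem_nhds hcon)
    have hev2 : ∀ᶠ z in nhds y, ∀ i, 0 < z i := by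
      rw [Filter.eventually_all]
      exact fun i => (continuousAt_apply i y).eventually (lt_mem_nhds (hpos i))
    obtain ⟨z, ⟨k, G, hz⟩, hz2, hz3⟩ := (mem_closure_iff_frequently.mp hy).and_eventually (hev.and hev2) |>.exists
    have h1 : 0 < t (PG RR) G := by
      have := hz3 (ee none)
      rw [hz] at this
      simp only at this
      rwa [dens_none] at this
    have h2 := wfwd hb hU G h1
    rw [LF_apply] at hz2
    simp only [hz, dens_none, dens_some] at hz2
    linarith
  · simp
  · intro x y _ _ hx hy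
    rw [map_add]
    exact add_nonneg hx hy
  · intro r x _ hx
    have : LF a b (r • x) = (r : ℝ) * LF a b x := by
      rw [NNReal.smul_def, map_smul, smul_eq_mul]
    rw [this]
    exact mul_nonneg r.2 hx

lemma wv_of_nonneg {a b : Fin 11 → ℝ} (h : ∀ y ∈ trop nv cf, 0 ≤ LF a b y) : WV RR a b := by
  intro k W h1 h2
  have hmem : (fun i => Real.log (dens (cf i) W)) ∈ trop nv cf := by
    refine subset_closure (Submodule.subset_span ⟨fun i => dens (cf i) W, subset_closure ⟨k, W, rfl⟩, ?_, rfl⟩)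
    intro i
    obtain ⟨o, rfl⟩ := ee.surjective i
    rcases o with _ | k'
    · beta_reduce; rw [dens_none]; exact h1
    · beta_reduce; rw [dens_some]; exact h2 k'
  have := h _ hmem
  rw [LF_apply] at this
  simp only [dens_none, dens_some] at this
  linarith

/-! ### Linearity in the weights -/

lemma aw_lin (x y z : ℝ) (j : Fin 11) : aw x y z j = x * aw 1 0 0 j + y * aw 0 1 0 j + z * aw 0 0 1 j := by
  fin_cases j <;> simp [aw] <;> ring

lemma bw_lin (x y z : ℝ) (j : Fin 11) : bw x y z j = x * bw 1 0 0 j + y * bw 0 1 0 j + z * bw 0 0 1 j := by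
  fin_cases j <;> simp [bw] <;> ring

lemma wt_lin (x y z : ℝ) (k : Fin 11 × Fin 3) : wt (aw x y z) (bw x y z) k =
    x * wt (aw 1 0 0) (bw 1 0 0) k + y * wt (aw 0 1 0) (bw 0 1 0) k + z * wt (aw 0 0 1) (bw 0 0 1) k := by
  unfold wt
  split_ifs
  · exact bw_lin x y z k.1
  · exact aw_lin x y z k.1

lemma LF_lin (x y z : ℝ) (v : Fin ns → ℝ) : LF (aw x y z) (bw x y z) v =
    x * LF (aw 1 0 0) (bw 1 0 0) v + y * LF (aw 0 1 0) (bw 0 1 0) v + z * LF (aw 0 0 1) (bw 0 0 1) v := by
  simp only [LF_apply, wt_lin x y z]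
  simp only [add_mul, Finset.sum_add_distrib, mul_assoc, ← Finset.mul_sum]
  ring

/-- The tropicalization is not polyhedral. -/
theorem not_polyhedral : ¬ IsPolyhedralCone (trop nv cf) := by
  rintro ⟨m, al, hK⟩
  have hmem : ∀ y, y ∈ trop nv cf ↔ ∀ i : Fin m, 0 ≤ (∑ j, al i j • (LinearMap.proj j : (Fin ns → ℝ) →ₗ[ℝ] ℝ)) y := by
    intro y
    rw [hK]
    simp [LinearMap.sum_apply]
  have hD : ∀ y ∈ trop nv cf, 0 ≤ LF (aw 0 0 1) (bw 0 0 1) y := fun y hy =>
    LF_nonneg (wbal le_rfl le_rfl zero_le_one) wu_delta y hy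
  have hM : ∀ (k : ℕ), ∀ y ∈ trop nv cf, 0 ≤ (k : ℝ) * LF (aw 1 0 0) (bw 1 0 0) y + LF (aw 0 1 0) (bw 0 1 0) y +
      ((k : ℝ) * (k + 1) / 2) * LF (aw 0 0 1) (bw 0 0 1) y := by
    intro k y hy
    have h1 := LF_nonneg (wbal (Nat.cast_nonneg k) zero_le_one (by positivity)) (wu_mat k) y hy
    rw [LF_lin] at h1
    linarith
  have hA : ∀ y ∈ trop nv cf, LF (aw 0 0 1) (bw 0 0 1) y = 0 → 0 ≤ LF (aw 1 0 0) (bw 1 0 0) y := by
    intro y hy h0
    by_contra hcon
    push Not at hcon
    obtain ⟨k, hk⟩ := exists_nat_gt (LF (aw 0 1 0) (bw 0 1 0) y / (-(LF (aw 1 0 0) (bw 1 0 0) y)))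
    rw [div_lt_iff₀ (by linarith)] at hk
    have h1 := hM k y hy
    rw [h0, mul_zero, add_zero] at h1
    linarith
  obtain ⟨c, hc0, hc1⟩ := face m (fun i => ∑ j, al i j • (LinearMap.proj j : (Fin ns → ℝ) →ₗ[ℝ] ℝ))
    (LF (aw 1 0 0) (bw 1 0 0)) (LF (aw 0 0 1) (bw 0 0 1))
    (fun y hy => hA y ((hmem y).mpr hy)) (fun y hy => hD y ((hmem y).mpr hy))
  have h2 : ∀ y ∈ trop nv cf, 0 ≤ LF (aw 1 0 c) (bw 1 0 c) y := by
    intro y hy
    rw [LF_lin]
    have := hc1 y ((hmem y).mp hy)
    linarith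
  exact not_wu c hc0 (wbwd (wbal zero_le_one le_rfl hc0) (wv_of_nonneg h2))

/-! ### Connectedness -/

lemma connected_of_dominating {V : Type} (G : SimpleGraph V) (r : V) (h : ∀ v, v ≠ r → G.Adj r v) : G.Connected := by
  rw [SimpleGraph.connected_iff_exists_forall_reachable]
  refine ⟨r, fun v => ?_⟩
  by_cases hv : v = r
  · rw [hv]
  · exact (h v hv).reachable

lemma PG_dom {ℓ n : ℕ} (R : Fin ℓ → Finset (Fin n)) (p : PV ℓ n) (hp : p ≠ Sum.inl ⟨ℓ + n + 3, by omega⟩) :
    (PG R).Adj (Sum.inl ⟨ℓ + n + 3, by omega⟩) p := by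
  change padj R _ _
  rcases p with u | v
  · simp only [padj]
    exact fun h => hp (by rw [h])
  · simp only [padj]
    have := rk_lt v
    omega

lemma cg_connected (o : IX) : (cg o).Connected := by
  rcases o with _ | k
  · exact connected_of_dominating (PG RR) (Sum.inl ⟨11 + 4 + 3, by omega⟩) (fun p hp => PG_dom RR p hp)
  · refine connected_of_dominating (CG RR RR k) (corek RR RR k ⟨11 + 4 + 3, by omega⟩) (fun q hq => ?_)
    refine ⟨PG_dom RR q.1.1 (fun h => hq ?_), Or.inr (Or.inl trivial)⟩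
    exact corek_c k _ q h

lemma cf_connected (i : Fin ns) : (cf i).Connected := by
  unfold cf
  have e : (cg (ee.symm i)).comap (Fintype.equivFin (cv (ee.symm i))).symm ≃g cg (ee.symm i) :=
    ⟨(Fintype.equivFin (cv (ee.symm i))).symm, Iff.rfl⟩
  exact e.connected_iff.mpr (cg_connected _)

end Pool.Agent.H211TP
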